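import Mathlib

/-! The autocorrelation inequality. -/

namespace Pool.Agent.J6H21.Steklov

open scoped BigOperators

theorem fiber_mul {α β : Type*} (X : Finset α) (Y : Finset β) (S : Finset ℤ) (π : α → ℤ)
    (ρ : β → ℤ) (F : α → ℂ) (G : β → ℂ) (hX : ∀ x ∈ X, π x ∈ S) :
    ∑ s ∈ S, (∑ x ∈ X with π x = s, F x) * (∑ y ∈ Y with ρ y = s, G y)
      = ∑ x ∈ X, ∑ y ∈ Y, if π x = ρ y then F x * G y else 0 := by
  have h1 : ∀ s ∈ S, (∑ x ∈ X with π x = s, F x) * (∑ y ∈ Y with ρ y = s, G y)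
      = ∑ x ∈ X, ∑ y ∈ Y, if π x = s then (if ρ y = s then F x * G y else 0) else 0 := by
    intro s _
    rw [Finset.sum_filter, Finset.sum_filter, Finset.sum_mul_sum]
    refine Finset.sum_congr rfl fun x _ => Finset.sum_congr rfl fun y _ => ?_
    split_ifs <;> simp
  rw [Finset.sum_congr rfl h1, Finset.sum_comm]
  refine Finset.sum_congr rfl fun x hx => ?_
  rw [Finset.sum_comm]
  refine Finset.sum_congr rfl fun y _ => ?_
  rw [Finset.sum_ite_eq, if_pos (hX x hx)]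
  split_ifs with h1 h2 h2
  · rfl
  · exact absurd h1.symm h2
  · exact absurd h2.symm h1
  · rfl

theorem pair_sum (I : Finset ℤ) (s : ℤ) (F : ℤ → ℤ → ℂ) :
    ∑ x ∈ I ×ˢ I with x.1 + x.2 = s, F x.1 x.2
      = ∑ p ∈ I, if s - p ∈ I then F p (s - p) else 0 := by
  rw [Finset.sum_filter, Finset.sum_product]
  refine Finset.sum_congr rfl fun p _ => ?_
  have : ∀ q ∈ I, (if p + q = s then F p q else 0) = if q = s - p then F p q else 0 := by
    intro q _
    congr 1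
    exact propext ⟨fun h => by omega, fun h => by omega⟩
  simp only
  rw [Finset.sum_congr rfl this, Finset.sum_ite_eq']

theorem pair_sum_real (I : Finset ℤ) (s : ℤ) (F : ℤ → ℤ → ℝ) :
    ∑ x ∈ I ×ˢ I with x.1 + x.2 = s, F x.1 x.2
      = ∑ p ∈ I, if s - p ∈ I then F p (s - p) else 0 := by
  rw [Finset.sum_filter, Finset.sum_product]
  refine Finset.sum_congr rfl fun p _ => ?_
  have : ∀ q ∈ I, (if p + q = s then F p q else 0) = if q = s - p then F p q else 0 := by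
    intro q _
    congr 1
    exact propext ⟨fun h => by omega, fun h => by omega⟩
  simp only
  rw [Finset.sum_congr rfl this, Finset.sum_ite_eq']

/-- `∑_s |(f*f)(s)|^2 ≥ (∑ |f|^2)^2`. -/
theorem autocorr (A B : ℤ) (f : ℤ → ℂ) :
    (∑ p ∈ Finset.Icc A B, ‖f p‖ ^ 2) ^ 2
      ≤ ∑ s ∈ Finset.Icc (A + A) (B + B),
        ‖∑ x ∈ Finset.Icc A B ×ˢ Finset.Icc A B with x.1 + x.2 = s, f x.1 * f x.2‖ ^ 2 := by
  set I := Finset.Icc A B with hI
  set S := Finset.Icc (A + A) (B + B) with hS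
  have e1 : (∑ s ∈ S, ((‖∑ x ∈ I ×ˢ I with x.1 + x.2 = s, f x.1 * f x.2‖ ^ 2 : ℝ) : ℂ))
      = ∑ x ∈ I ×ˢ I, ∑ y ∈ I ×ˢ I, if x.1 + x.2 = y.1 + y.2 then
        (f x.1 * f x.2) * (starRingEnd ℂ) (f y.1 * f y.2) else 0 := by
    rw [← fiber_mul (I ×ˢ I) (I ×ˢ I) S (fun x => x.1 + x.2) (fun y => y.1 + y.2)
      (fun x => f x.1 * f x.2) (fun y => (starRingEnd ℂ) (f y.1 * f y.2))]
    · refine Finset.sum_congr rfl fun s _ => ?_
      rw [← map_sum, Complex.mul_conj']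
      push_cast
      rfl
    · intro x hx
      simp only [hI, Finset.mem_product, Finset.mem_Icc] at hx
      simp only [hS, Finset.mem_Icc]
      omega
  set S' := Finset.Icc (A - B) (B - A) ∪ {0} with hS'
  have e2 : (∑ s ∈ S', ((‖∑ x ∈ I ×ˢ I with x.1 - x.2 = s, f x.1 * (starRingEnd ℂ) (f x.2)‖ ^ 2 : ℝ) : ℂ))
      = ∑ x ∈ I ×ˢ I, ∑ y ∈ I ×ˢ I, if x.1 - x.2 = y.1 - y.2 then
        (f x.1 * (starRingEnd ℂ) (f x.2)) * (starRingEnd ℂ) (f y.1 * (starRingEnd ℂ) (f y.2))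
        else 0 := by
    rw [← fiber_mul (I ×ˢ I) (I ×ˢ I) S' (fun x => x.1 - x.2) (fun y => y.1 - y.2)
      (fun x => f x.1 * (starRingEnd ℂ) (f x.2))
      (fun y => (starRingEnd ℂ) (f y.1 * (starRingEnd ℂ) (f y.2)))]
    · refine Finset.sum_congr rfl fun s _ => ?_
      rw [← map_sum, Complex.mul_conj']
      push_cast
      rfl
    · intro x hx
      simp only [hI, Finset.mem_product, Finset.mem_Icc] at hx
      simp only [hS', Finset.mem_union, Finset.mem_Icc]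
      left
      omega
  have e3 : (∑ x ∈ I ×ˢ I, ∑ y ∈ I ×ˢ I, if x.1 + x.2 = y.1 + y.2 then
        (f x.1 * f x.2) * (starRingEnd ℂ) (f y.1 * f y.2) else 0)
      = ∑ x ∈ I ×ˢ I, ∑ y ∈ I ×ˢ I, if x.1 - x.2 = y.1 - y.2 then
        (f x.1 * (starRingEnd ℂ) (f x.2)) * (starRingEnd ℂ) (f y.1 * (starRingEnd ℂ) (f y.2))
        else 0 := by
    simp only [Finset.sum_product]
    refine Finset.sum_congr rfl fun a _ => ?_
    -- left: b, c, e with a + b = c + e ; right: c, e, b with a - c = e - b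
    rw [Finset.sum_comm]
    refine Finset.sum_congr rfl fun c _ => ?_
    rw [Finset.sum_comm]
    refine Finset.sum_congr rfl fun e _ => ?_
    refine Finset.sum_congr rfl fun b _ => ?_
    have h1 : (a + b = c + e) ↔ (a - c = e - b) := by constructor <;> intro h <;> omega
    by_cases h : a + b = c + e
    · rw [if_pos h, if_pos (h1.1 h)]
      simp only [map_mul, Complex.conj_conj]
      ring
    · rw [if_neg h, if_neg (fun h' => h (h1.2 h'))]
  have e4 : (∑ s ∈ S, ‖∑ x ∈ I ×ˢ I with x.1 + x.2 = s, f x.1 * f x.2‖ ^ 2)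
      = ∑ s ∈ S', ‖∑ x ∈ I ×ˢ I with x.1 - x.2 = s, f x.1 * (starRingEnd ℂ) (f x.2)‖ ^ 2 := by
    have h := e1.trans (e3.trans e2.symm)
    exact_mod_cast h
  rw [e4]
  have e5 : ∑ x ∈ I ×ˢ I with x.1 - x.2 = 0, f x.1 * (starRingEnd ℂ) (f x.2)
      = ((∑ p ∈ I, ‖f p‖ ^ 2 : ℝ) : ℂ) := by
    rw [Finset.sum_filter, Finset.sum_product, Complex.ofReal_sum]
    refine Finset.sum_congr rfl fun p hp => ?_
    have : ∀ q ∈ I, (if p - q = 0 then f p * (starRingEnd ℂ) (f q) else 0)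
        = if q = p then f p * (starRingEnd ℂ) (f q) else 0 := by
      intro q _
      congr 1
      exact propext ⟨fun h => by omega, fun h => by omega⟩
    simp only
    rw [Finset.sum_congr rfl this, Finset.sum_ite_eq', if_pos hp, Complex.mul_conj']
    push_cast
    rfl
  have h0 : (0 : ℤ) ∈ S' := by rw [hS']; simp
  have h6 := Finset.single_le_sum (f := fun s =>
    ‖∑ x ∈ I ×ˢ I with x.1 - x.2 = s, f x.1 * (starRingEnd ℂ) (f x.2)‖ ^ 2)
    (fun s _ => by positivity) h0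
  refine le_trans (le_of_eq ?_) h6
  rw [e5, Complex.norm_real, Real.norm_eq_abs, sq_abs]

end Pool.Agent.J6H21.Steklov
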