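import Mathlib

/-! The coefficients `N_j` and basic bounds. -/

namespace Pool.Agent.J6H21.Steklov

/-- `f(n) = n (n + j₀) ⋯ (n + j₀ + ⋯ + j_{m-2})`. -/
def fP (m : ℕ) (j : Fin m → ℤ) (n : ℤ) : ℤ := ∏ i : Fin m, (n + ∑ l ∈ Finset.Iio i, j l)

/-- `N_j = ∑_n (|f(n)| - f(n))`. -/
noncomputable def Nc (m : ℕ) (j : Fin m → ℤ) : ℤ := ∑ᶠ n : ℤ, (|fP m j n| - fP m j n)

/-- The zeta form of a sequence. -/
noncomputable def Zs (m : ℕ) (c : ℤ → ℂ) : ℂ :=
  ∑' j : {j : Fin m → ℤ // ∑ i, j i = 0}, (Nc m j.1 : ℂ) * ∏ i, c (j.1 i)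

/-- total size of `j` -/
def tot {m : ℕ} (j : Fin m → ℤ) : ℤ := ∑ i, |j i|

theorem tot_nonneg {m : ℕ} (j : Fin m → ℤ) : 0 ≤ tot j := Finset.sum_nonneg fun i _ => abs_nonneg _

theorem mixed {m : ℕ} (hm : Even m) (w : Fin m → ℤ) (h : ∏ i, w i < 0) :
    (∃ i, w i < 0) ∧ (∃ i, 0 < w i) := by
  constructor
  · by_contra hcon
    push Not at hcon
    exact absurd h (not_lt.2 (Finset.prod_nonneg fun i _ => hcon i))
  · by_contra hcon
    push Not at hcon
    refine absurd h (not_lt.2 ?_)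
    have h1 : ∏ i, w i = ∏ i, (-w i) := by
      rw [Finset.prod_neg, Finset.card_univ, Fintype.card_fin, hm.neg_one_pow, one_mul]
    rw [h1]
    exact Finset.prod_nonneg fun i _ => by have := hcon i; omega

theorem psum_le {m : ℕ} (j : Fin m → ℤ) (i : Fin m) : |∑ l ∈ Finset.Iio i, j l| ≤ tot j :=
  (Finset.abs_sum_le_sum_abs _ _).trans
    (Finset.sum_le_sum_of_subset_of_nonneg (Finset.subset_univ _) fun _ _ _ => abs_nonneg _)

theorem neg_support {m : ℕ} (hm : Even m) (j : Fin m → ℤ) (n : ℤ) (h : fP m j n < 0) :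
    |n| ≤ tot j := by
  obtain ⟨⟨i, hi⟩, ⟨i', hi'⟩⟩ := mixed hm _ h
  have h1 := abs_le.1 (psum_le j i)
  have h2 := abs_le.1 (psum_le j i')
  rw [abs_le]
  constructor
  · linarith [h2.2]
  · linarith [h1.1]

theorem term_support {m : ℕ} (hm : Even m) (j : Fin m → ℤ) (n : ℤ)
    (h : |fP m j n| - fP m j n ≠ 0) : |n| ≤ tot j := by
  apply neg_support hm
  by_contra hcon
  push Not at hcon
  rw [abs_of_nonneg hcon, sub_self] at h
  exact h rfl

theorem Nc_eq_sum {m : ℕ} (hm : Even m) (j : Fin m → ℤ) (R : ℤ) (hR : tot j ≤ R) :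
    Nc m j = ∑ n ∈ Finset.Icc (-R) R, (|fP m j n| - fP m j n) := by
  unfold Nc
  refine finsum_eq_sum_of_support_subset _ ?_
  intro n hn
  have := abs_le.1 (term_support hm j n hn)
  rw [Finset.coe_Icc, Set.mem_Icc]
  constructor <;> omega

theorem term_nonneg {m : ℕ} (j : Fin m → ℤ) (n : ℤ) : 0 ≤ |fP m j n| - fP m j n := by
  have := le_abs_self (fP m j n)
  omega

theorem Nc_nonneg {m : ℕ} (hm : Even m) (j : Fin m → ℤ) : 0 ≤ Nc m j := by
  rw [Nc_eq_sum hm j (tot j) le_rfl]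
  exact Finset.sum_nonneg fun n _ => term_nonneg j n

theorem fP_le {m : ℕ} (j : Fin m → ℤ) (n : ℤ) (hn : |n| ≤ tot j) :
    |fP m j n| ≤ (2 * tot j) ^ m := by
  unfold fP
  rw [Finset.abs_prod]
  calc ∏ i, |n + ∑ l ∈ Finset.Iio i, j l| ≤ ∏ _i : Fin m, (2 * tot j) := by
        refine Finset.prod_le_prod (fun _ _ => abs_nonneg _) fun i _ => ?_
        have := psum_le j i
        have h3 := abs_add_le n (∑ l ∈ Finset.Iio i, j l)
        linarith
    _ = _ := by simp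

theorem Nc_le {m : ℕ} (hm : Even m) (j : Fin m → ℤ) : Nc m j ≤ 2 * (1 + 2 * tot j) ^ (m + 1) := by
  have h0 := tot_nonneg j
  rw [Nc_eq_sum hm j (tot j) le_rfl]
  calc ∑ n ∈ Finset.Icc (-tot j) (tot j), (|fP m j n| - fP m j n)
      ≤ ∑ n ∈ Finset.Icc (-tot j) (tot j), 2 * (1 + 2 * tot j) ^ m := by
        refine Finset.sum_le_sum fun n hn => ?_
        rw [Finset.mem_Icc] at hn
        have h1 := fP_le j n (abs_le.2 hn)
        have h2 := neg_abs_le (fP m j n)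
        have h3 : (2 * tot j) ^ m ≤ (1 + 2 * tot j) ^ m :=
          pow_le_pow_left₀ (by positivity) (by omega) m
        linarith
    _ = _ := by
        rw [Finset.sum_const, Int.card_Icc, nsmul_eq_mul]
        have : (((tot j + 1 - -tot j).toNat : ℕ) : ℤ) = 1 + 2 * tot j := by omega
        rw [this]; ring

theorem one_add_sum_le_prod {m : ℕ} (x : Fin m → ℝ) (hx : ∀ i, 0 ≤ x i) :
    1 + ∑ i, x i ≤ ∏ i, (1 + x i) := by
  induction m with
  | zero => simp
  | succ m ih =>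
    rw [Fin.sum_univ_succ, Fin.prod_univ_succ]
    have h1 := ih (fun i => x i.succ) fun i => hx _
    have h2 : 0 ≤ ∑ i : Fin m, x i.succ := Finset.sum_nonneg fun i _ => hx _
    have h3 := mul_le_mul_of_nonneg_left h1 (by linarith [hx 0] : 0 ≤ 1 + x 0)
    refine le_trans ?_ h3
    nlinarith [mul_nonneg (hx 0) h2]

theorem Nc_le_prod {m : ℕ} (hm : Even m) (j : Fin m → ℤ) :
    (Nc m j : ℝ) ≤ 2 * ∏ i, (1 + 2 * |(j i : ℝ)|) ^ (m + 1) := by
  have h1 : (Nc m j : ℝ) ≤ 2 * (1 + 2 * (tot j : ℝ)) ^ (m + 1) := by exact_mod_cast Nc_le hm j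
  refine h1.trans ?_
  rw [Finset.prod_pow]
  refine mul_le_mul_of_nonneg_left (pow_le_pow_left₀ ?_ ?_ _) zero_le_two
  · have : (0 : ℝ) ≤ tot j := by exact_mod_cast tot_nonneg j
    linarith
  · refine le_trans (le_of_eq ?_) (one_add_sum_le_prod (fun i => 2 * |(j i : ℝ)|)
      fun i => by positivity)
    unfold tot
    push_cast
    rw [Finset.mul_sum]

theorem summable_pi {m : ℕ} (g : ℤ → ℝ) (hg : ∀ x, 0 ≤ g x) (hs : Summable g) :
    Summable fun j : Fin m → ℤ => ∏ i, g (j i) := by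
  refine summable_of_sum_le (c := (∑' x, g x) ^ m) (fun j => Finset.prod_nonneg fun i _ => hg _) ?_
  intro F
  classical
  set s : Finset ℤ := F.biUnion fun j => Finset.univ.image j with hs_def
  have hF : F ⊆ Fintype.piFinset fun _ : Fin m => s := by
    intro j hj
    rw [Fintype.mem_piFinset]
    intro i
    rw [hs_def, Finset.mem_biUnion]
    exact ⟨j, hj, Finset.mem_image_of_mem _ (Finset.mem_univ _)⟩
  calc ∑ j ∈ F, ∏ i, g (j i) ≤ ∑ j ∈ Fintype.piFinset (fun _ : Fin m => s), ∏ i, g (j i) :=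
        Finset.sum_le_sum_of_subset_of_nonneg hF fun j _ _ => Finset.prod_nonneg fun i _ => hg _
    _ = ∏ _i : Fin m, ∑ x ∈ s, g x := by
        rw [Finset.prod_univ_sum]
    _ = (∑ x ∈ s, g x) ^ m := by simp
    _ ≤ _ := pow_le_pow_left₀ (Finset.sum_nonneg fun _ _ => hg _)
        (hs.sum_le_tsum s fun _ _ => hg _) m

/-- Dominating summability for `Zs`. -/
theorem summable_bound {m : ℕ} (hm : Even m) (c : ℤ → ℂ)
    (hc : Summable fun x : ℤ => (1 + 2 * |(x : ℝ)|) ^ (m + 1) * ‖c x‖) :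
    Summable fun j : {j : Fin m → ℤ // ∑ i, j i = 0} => (Nc m j.1 : ℝ) * ∏ i, ‖c (j.1 i)‖ := by
  have h1 := summable_pi (m := m) _ (fun x => by positivity) hc
  have h2 : Summable fun j : {j : Fin m → ℤ // ∑ i, j i = 0} =>
      2 * ∏ i, ((1 + 2 * |(j.1 i : ℝ)|) ^ (m + 1) * ‖c (j.1 i)‖) :=
    (h1.comp_injective Subtype.val_injective).mul_left 2
  refine Summable.of_nonneg_of_le (fun j => ?_) (fun j => ?_) h2
  · have : (0 : ℝ) ≤ Nc m j.1 := by exact_mod_cast Nc_nonneg hm j.1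
    exact mul_nonneg this (Finset.prod_nonneg fun i _ => norm_nonneg _)
  · rw [Finset.prod_mul_distrib, ← mul_assoc]
    exact mul_le_mul_of_nonneg_right (Nc_le_prod hm j.1)
      (Finset.prod_nonneg fun i _ => norm_nonneg _)

end Pool.Agent.J6H21.Steklov
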