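import Mathlib

/-! Walk expansions of traces, and the combinatorial form of the zeta invariants. -/

namespace Pool.Agent.J6H21.Steklov

open Matrix

variable {ι : Type} [Fintype ι] [DecidableEq ι]

theorem pow_succ_apply_walk (M : Matrix ι ι ℂ) (m : ℕ) : ∀ x y,
    (M ^ (m + 1)) x y = ∑ w : Fin m → ι, ∏ i : Fin (m + 1),
      M ((Fin.cons x w : Fin (m + 1) → ι) i) ((Fin.snoc w y : Fin (m + 1) → ι) i) := by
  induction m with
  | zero =>
    intro x y
    simp [Fin.snoc]
  | succ m ih =>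
    intro x y
    rw [pow_succ', Matrix.mul_apply]
    rw [← (Fin.consEquiv (fun _ : Fin (m + 1) => ι)).sum_comp, Fintype.sum_prod_type]
    refine Finset.sum_congr rfl fun z _ => ?_
    rw [ih, Finset.mul_sum]
    refine Finset.sum_congr rfl fun w _ => ?_
    have e1 : ((Fin.consEquiv (fun _ : Fin (m + 1) => ι)) (z, w)) = (Fin.cons z w : Fin (m + 1) → ι) :=
      rfl
    rw [e1]
    have e2 : (Fin.snoc (Fin.cons z w : Fin (m + 1) → ι) y : Fin (m + 2) → ι)
        = Fin.cons z (Fin.snoc w y : Fin (m + 1) → ι) :=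
      (Fin.cons_snoc_eq_snoc_cons z w y).symm
    rw [e2]
    conv_rhs => rw [Fin.prod_univ_succ]
    simp only [Fin.cons_zero, Fin.cons_succ]

theorem trace_pow_walk (M : Matrix ι ι ℂ) (m : ℕ) :
    (M ^ (m + 1)).trace = ∑ w : Fin (m + 1) → ι, ∏ i, M (w i) (w (i + 1)) := by
  rw [← (Fin.consEquiv (fun _ : Fin (m + 1) => ι)).sum_comp, Fintype.sum_prod_type, Matrix.trace]
  refine Finset.sum_congr rfl fun x _ => ?_
  rw [Matrix.diag_apply, pow_succ_apply_walk]
  refine Finset.sum_congr rfl fun w _ => ?_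
  refine Finset.prod_congr rfl fun i _ => ?_
  have : (Fin.snoc w x : Fin (m + 1) → ι) i
      = ((Fin.consEquiv (fun _ : Fin (m + 1) => ι)) (x, w)) (i + 1) := by
    refine Fin.lastCases ?_ (fun i => ?_) i
    · rw [Fin.snoc_last, Fin.last_add_one]
      rfl
    · rw [Fin.snoc_castSucc, Fin.coeSucc_eq_succ]
      rfl
  rw [this]
  rfl

end Pool.Agent.J6H21.Steklov
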