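import Mathlib
import Pool.Agent.J6H21.Steklov.Coef
import Pool.Agent.J6H21.Steklov.Walks

/-! The zeta form of a finitely supported sequence is a difference of two traces. -/

namespace Pool.Agent.J6H21.Steklov

open Matrix

theorem Iio_succ {m : ℕ} (i : Fin m) :
    Finset.Iio (i.succ : Fin (m + 1)) = insert i.castSucc (Finset.Iio i.castSucc) := by
  ext l
  simp only [Finset.mem_Iio, Finset.mem_insert, Fin.lt_def, Fin.ext_iff, Fin.val_succ,
    Fin.val_castSucc]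
  omega

theorem sum_Iio_succ {m : ℕ} (j : Fin (m + 1) → ℤ) (i : Fin m) :
    ∑ l ∈ Finset.Iio i.succ, j l = j i.castSucc + ∑ l ∈ Finset.Iio i.castSucc, j l := by
  rw [Iio_succ, Finset.sum_insert (by simp)]

theorem sum_Iio_zero {m : ℕ} (j : Fin (m + 1) → ℤ) :
    ∑ l ∈ Finset.Iio (0 : Fin (m + 1)), j l = 0 := by
  have : Finset.Iio (0 : Fin (m + 1)) = ∅ := by
    ext l; simp
  rw [this, Finset.sum_empty]

theorem sum_Iio_last {m : ℕ} (j : Fin (m + 1) → ℤ) :
    j (Fin.last m) + ∑ l ∈ Finset.Iio (Fin.last m), j l = ∑ l, j l := by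
  have : (Finset.univ : Finset (Fin (m + 1))) = insert (Fin.last m) (Finset.Iio (Fin.last m)) := by
    ext l
    simp only [Finset.mem_univ, Finset.mem_insert, Finset.mem_Iio, Fin.lt_def, Fin.ext_iff,
      Fin.val_last, true_iff]
    have := l.2
    omega
  rw [this, Finset.sum_insert (by simp)]

theorem telescope {m : ℕ} (w : Fin (m + 1) → ℤ) (i : Fin (m + 1)) :
    w 0 + ∑ l ∈ Finset.Iio i, (w (l + 1) - w l) = w i := by
  refine Fin.induction ?_ (fun i ih => ?_) i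
  · rw [sum_Iio_zero (fun l => w (l + 1) - w l), add_zero]
  · rw [sum_Iio_succ (fun l => w (l + 1) - w l), Fin.coeSucc_eq_succ]
    linarith

/-- Closed walks correspond to pairs (steps, starting point). -/
def walkEquiv (m : ℕ) :
    (Fin (m + 1) → ℤ) ≃ {j : Fin (m + 1) → ℤ // ∑ i, j i = 0} × ℤ where
  toFun w := (⟨fun i => w (i + 1) - w i, by
    rw [Finset.sum_sub_distrib, sub_eq_zero]
    exact Equiv.sum_comp (Equiv.addRight (1 : Fin (m + 1))) w⟩, w 0)
  invFun p := fun i => p.2 + ∑ l ∈ Finset.Iio i, p.1.1 l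
  left_inv w := by
    funext i
    exact telescope w i
  right_inv p := by
    obtain ⟨⟨j, hj⟩, n⟩ := p
    refine Prod.ext (Subtype.ext (funext fun i => ?_)) ?_
    · simp only
      refine Fin.lastCases ?_ (fun i => ?_) i
      · rw [Fin.last_add_one, sum_Iio_zero]
        have := sum_Iio_last j
        rw [hj] at this
        linarith
      · rw [Fin.coeSucc_eq_succ, sum_Iio_succ]
        ring
    · simp only
      rw [sum_Iio_zero, add_zero]

/-- The walk form of the summand. -/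
noncomputable def Gw (m : ℕ) (c : ℤ → ℂ) (w : Fin (m + 1) → ℤ) : ℂ :=
  ((|∏ i, w i| - ∏ i, w i : ℤ) : ℂ) * ∏ i, c (w (i + 1) - w i)

theorem Gw_symm (m : ℕ) (c : ℤ → ℂ) (p : {j : Fin (m + 1) → ℤ // ∑ i, j i = 0} × ℤ) :
    Gw m c ((walkEquiv m).symm p)
      = ((|fP (m + 1) p.1.1 p.2| - fP (m + 1) p.1.1 p.2 : ℤ) : ℂ) * ∏ i, c (p.1.1 i) := by
  have h := (walkEquiv m).apply_symm_apply p
  have h1 : ∀ i, ((walkEquiv m).symm p) (i + 1) - ((walkEquiv m).symm p) i = p.1.1 i := by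
    intro i
    have h2 := congrArg (fun q => q.1.1 i) h
    exact h2
  unfold Gw
  simp only [h1]
  rfl

theorem Gw_support {m : ℕ} (hm : Even (m + 1)) (c : ℤ → ℂ) (d : ℤ)
    (hc : ∀ n, d < |n| → c n = 0) (w : Fin (m + 1) → ℤ) (h : Gw m c w ≠ 0) (i : Fin (m + 1)) :
    |w i| ≤ 2 * ((m + 1) * d) := by
  set p := walkEquiv m w with hp
  have hw : w = (walkEquiv m).symm p := by rw [hp, Equiv.symm_apply_apply]
  have h1 := h
  rw [hw, Gw_symm] at h1
  have h2 := left_ne_zero_of_mul h1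
  have h3 := right_ne_zero_of_mul h1
  have h4 : |fP (m + 1) p.1.1 p.2| - fP (m + 1) p.1.1 p.2 ≠ 0 := by
    intro h5; rw [h5] at h2; simp at h2
  have h5 := term_support hm p.1.1 p.2 h4
  have h6 : tot p.1.1 ≤ (m + 1) * d := by
    unfold tot
    calc ∑ i, |p.1.1 i| ≤ ∑ _i : Fin (m + 1), d := by
          refine Finset.sum_le_sum fun i _ => ?_
          by_contra hcon
          push Not at hcon
          exact Finset.prod_ne_zero_iff.1 h3 i (Finset.mem_univ _) (hc _ hcon)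
      _ = _ := by simp
  have h7 := psum_le p.1.1 i
  have h8 : w i = p.2 + ∑ l ∈ Finset.Iio i, p.1.1 l := by
    conv_lhs => rw [hw]
    rfl
  rw [h8]
  have := abs_add_le p.2 (∑ l ∈ Finset.Iio i, p.1.1 l)
  linarith

theorem Nc_tsum {m : ℕ} (hm : Even m) (j : Fin m → ℤ) :
    ∑' n : ℤ, ((|fP m j n| - fP m j n : ℤ) : ℂ) = (Nc m j : ℂ) := by
  rw [Nc_eq_sum hm j (tot j) le_rfl, Int.cast_sum]
  refine tsum_eq_sum fun n hn => ?_
  by_contra h
  apply hn
  have h1 : |fP m j n| - fP m j n ≠ 0 := by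
    intro h5; rw [h5] at h; simp at h
  have := abs_le.1 (term_support hm j n h1)
  rw [Finset.mem_Icc]
  exact this

theorem Zs_eq_walks {m : ℕ} (hm : Even (m + 1)) (c : ℤ → ℂ) (d : ℤ)
    (hc : ∀ n, d < |n| → c n = 0) (R : ℤ) (hR : 2 * ((m + 1) * d) ≤ R) :
    Zs (m + 1) c = ∑ w : Fin (m + 1) → {x // x ∈ Finset.Icc (-R) R}, Gw m c (fun i => (w i : ℤ)) := by
  set φ : (Fin (m + 1) → {x // x ∈ Finset.Icc (-R) R}) → (Fin (m + 1) → ℤ) :=
    fun w i => (w i : ℤ) with hφ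
  have hinj : Function.Injective φ := by
    intro w w' h
    funext i
    exact Subtype.ext (congrFun h i)
  have hsupp : Function.support (Gw m c) ⊆ Set.range φ := by
    intro w hw
    refine ⟨fun i => ⟨w i, ?_⟩, rfl⟩
    have := abs_le.1 ((Gw_support hm c d hc w hw i).trans hR)
    rw [Finset.mem_Icc]
    exact this
  have hfin : (Function.support (Gw m c)).Finite := (Set.finite_range φ).subset hsupp
  have hsum : Summable (Gw m c) := summable_of_hasFiniteSupport hfin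
  have e1 : ∑' w, Gw m c w = ∑' v, Gw m c (φ v) := (hinj.tsum_eq hsupp).symm
  have e2 : ∑' v, Gw m c (φ v) = ∑ v, Gw m c (φ v) := tsum_fintype _
  have e3 : ∑' w, Gw m c w = ∑' p, Gw m c ((walkEquiv m).symm p) :=
    ((walkEquiv m).symm.tsum_eq (Gw m c)).symm
  have e4 : ∑ v, Gw m c (φ v) = ∑' p, Gw m c ((walkEquiv m).symm p) := by
    rw [← e2, ← e1, e3]
  refine Eq.trans ?_ e4.symm
  have hsum' : Summable fun p => Gw m c ((walkEquiv m).symm p) :=
    hsum.comp_injective (walkEquiv m).symm.injective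
  have hF : (fun p => Gw m c ((walkEquiv m).symm p))
      = fun p : {j : Fin (m + 1) → ℤ // ∑ i, j i = 0} × ℤ =>
        ((|fP (m + 1) p.1.1 p.2| - fP (m + 1) p.1.1 p.2 : ℤ) : ℂ) * ∏ i, c (p.1.1 i) :=
    funext fun p => Gw_symm m c p
  rw [hF] at hsum' ⊢
  rw [hsum'.tsum_prod]
  unfold Zs
  refine tsum_congr fun j => ?_
  simp only []
  rw [tsum_mul_right, Nc_tsum hm]

/-- The matrix `T`. -/
noncomputable def TM (c : ℤ → ℂ) (R : ℤ) :
    Matrix {x // x ∈ Finset.Icc (-R) R} {x // x ∈ Finset.Icc (-R) R} ℂ :=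
  fun x y => ((√|(x : ℤ)| * √|(y : ℤ)| : ℝ) : ℂ) * c (y - x)

/-- sign with value one at zero -/
noncomputable def sg (x : ℤ) : ℝ := if 0 ≤ x then 1 else -1

theorem sg_mul_self (x : ℤ) : sg x * sg x = 1 := by
  unfold sg; split_ifs <;> norm_num

theorem sg_mul_abs (x : ℤ) : ((|x| : ℤ) : ℝ) * sg x = x := by
  unfold sg
  split_ifs with h
  · rw [abs_of_nonneg h, mul_one]
  · rw [abs_of_neg (not_le.1 h)]; push_cast; ring

theorem TM_herm (c : ℤ → ℂ) (hc : ∀ n, c (-n) = (starRingEnd ℂ) (c n)) (R : ℤ) :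
    (TM c R).IsHermitian := by
  ext x y
  rw [Matrix.conjTranspose_apply]
  unfold TM
  rw [star_mul', Complex.star_def, Complex.conj_ofReal, ← hc, neg_sub, mul_comm (√_) (√_)]

theorem prod_shift {m : ℕ} (f : Fin (m + 1) → ℂ) : ∏ i, f (i + 1) = ∏ i, f i :=
  Equiv.prod_comp (Equiv.addRight (1 : Fin (m + 1))) f

theorem trace_TM (c : ℤ → ℂ) (R : ℤ) (m : ℕ) :
    ((TM c R) ^ (m + 1)).trace
      = ∑ w : Fin (m + 1) → {x // x ∈ Finset.Icc (-R) R},
          ((|∏ i, (w i : ℤ)| : ℤ) : ℂ) * ∏ i, c ((w (i + 1) : ℤ) - (w i : ℤ)) := by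
  rw [trace_pow_walk]
  refine Finset.sum_congr rfl fun w _ => ?_
  unfold TM
  rw [Finset.prod_mul_distrib]
  congr 1
  push_cast
  rw [Finset.prod_mul_distrib, prod_shift (fun i => ((√|((w i : ℤ) : ℝ)| : ℝ) : ℂ)),
    ← Finset.prod_mul_distrib, Finset.abs_prod, Int.cast_prod]
  refine Finset.prod_congr rfl fun i _ => ?_
  rw [← Complex.ofReal_mul, Real.mul_self_sqrt (abs_nonneg _)]
  norm_cast

theorem trace_TMS (c : ℤ → ℂ) (R : ℤ) (m : ℕ) :
    ((TM c R * diagonal (fun i : {x // x ∈ Finset.Icc (-R) R} => (sg (i : ℤ) : ℂ))) ^ (m + 1)).trace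
      = ∑ w : Fin (m + 1) → {x // x ∈ Finset.Icc (-R) R},
          ((∏ i, (w i : ℤ) : ℤ) : ℂ) * ∏ i, c ((w (i + 1) : ℤ) - (w i : ℤ)) := by
  rw [trace_pow_walk]
  refine Finset.sum_congr rfl fun w _ => ?_
  simp only [Matrix.mul_diagonal]
  unfold TM
  rw [Finset.prod_mul_distrib, Finset.prod_mul_distrib, mul_right_comm]
  congr 1
  push_cast
  rw [Finset.prod_mul_distrib, prod_shift (fun i => ((√|((w i : ℤ) : ℝ)| : ℝ) : ℂ)),
    ← Finset.prod_mul_distrib, prod_shift (fun i => (sg (w i : ℤ) : ℂ)),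
    ← Finset.prod_mul_distrib]
  refine Finset.prod_congr rfl fun i _ => ?_
  rw [← Complex.ofReal_mul, Real.mul_self_sqrt (abs_nonneg _), ← Complex.ofReal_mul]
  have := sg_mul_abs (w i : ℤ)
  push_cast at this
  rw [this]
  norm_cast

theorem Zs_eq_trace {m : ℕ} (hm : Even (m + 1)) (c : ℤ → ℂ) (d : ℤ)
    (hc : ∀ n, d < |n| → c n = 0) (R : ℤ) (hR : 2 * ((m + 1) * d) ≤ R) :
    Zs (m + 1) c = ((TM c R) ^ (m + 1)).trace
      - ((TM c R * diagonal (fun i : {x // x ∈ Finset.Icc (-R) R} => (sg (i : ℤ) : ℂ))) ^ (m + 1)).trace := by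
  rw [Zs_eq_walks hm c d hc R hR, trace_TM, trace_TMS, ← Finset.sum_sub_distrib]
  refine Finset.sum_congr rfl fun w _ => ?_
  unfold Gw
  rw [← sub_mul]
  congr 1
  push_cast
  ring

end Pool.Agent.J6H21.Steklov
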