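import Mathlib

/-! Schur triangularisation in the form of a trace formula. -/

namespace Pool.Agent.J6H21.Steklov

open scoped InnerProductSpace
open Module

universe u

theorem schur_trace (n : ℕ) : ∀ (E : Type u) [NormedAddCommGroup E] [InnerProductSpace ℂ E]
    [FiniteDimensional ℂ E], finrank ℂ E = n → ∀ A : E →ₗ[ℂ] E,
    ∃ b : OrthonormalBasis (Fin n) ℂ E,
      ∀ m : ℕ, LinearMap.trace ℂ E (A ^ m) = ∑ i, ⟪b i, A (b i)⟫_ℂ ^ m := by
  induction n with
  | zero =>
    intro E _ _ _ hE A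
    have hb : Nonempty (OrthonormalBasis (Fin 0) ℂ E) := by
      have := stdOrthonormalBasis ℂ E
      rw [hE] at this
      exact ⟨this⟩
    obtain ⟨b⟩ := hb
    refine ⟨b, fun m => ?_⟩
    rw [LinearMap.trace_eq_sum_inner _ b]
    simp
  | succ n ih =>
    intro E _ _ _ hE A
    have : Nontrivial E := by
      apply Module.nontrivial_of_finrank_pos (R := ℂ)
      omega
    have : Fact (finrank ℂ E = n + 1) := ⟨hE⟩
    obtain ⟨ζ, hζ⟩ := Module.End.exists_eigenvalue (LinearMap.adjoint A)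
    obtain ⟨v0, hv0⟩ := hζ.exists_hasEigenvector
    have hv0n : v0 ≠ 0 := hv0.2
    have hv0e : LinearMap.adjoint A v0 = ζ • v0 := hv0.apply_eq_smul
    obtain ⟨v, hvn, hve⟩ : ∃ v : E, ‖v‖ = 1 ∧ LinearMap.adjoint A v = ζ • v := by
      refine ⟨((‖v0‖⁻¹ : ℝ) : ℂ) • v0, ?_, ?_⟩
      · rw [norm_smul]
        have : ‖v0‖ ≠ 0 := norm_ne_zero_iff.mpr hv0n
        simp [this]
      · rw [map_smul, hv0e, smul_comm]
    have hAv : ∀ x : E, ⟪v, A x⟫_ℂ = (starRingEnd ℂ) ζ * ⟪v, x⟫_ℂ := by
      intro x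
      rw [← LinearMap.adjoint_inner_left, hve, inner_smul_left]
    have hAvm : ∀ (m : ℕ) (x : E), ⟪v, (A ^ m) x⟫_ℂ = (starRingEnd ℂ) ζ ^ m * ⟪v, x⟫_ℂ := by
      intro m
      induction m with
      | zero => intro x; simp
      | succ m ihm =>
        intro x
        rw [pow_succ', Module.End.mul_apply, hAv, ihm, pow_succ']
        ring
    have hv0' : v ≠ 0 := by
      intro h; rw [h] at hvn; simp at hvn
    set F : Submodule ℂ E := (ℂ ∙ v)ᗮ with hF
    have hmem : ∀ x : E, x ∈ F ↔ ⟪v, x⟫_ℂ = 0 := by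
      intro x
      rw [hF, Submodule.mem_orthogonal_singleton_iff_inner_right]
    have hinv : ∀ x ∈ F, A x ∈ F := by
      intro x hx
      rw [hmem] at hx ⊢
      rw [hAv, hx, mul_zero]
    have hFn : finrank ℂ F = n := Submodule.finrank_orthogonal_span_singleton hv0'
    obtain ⟨b', hb'⟩ := ih F hFn (A.restrict hinv)
    have hon : Orthonormal ℂ (Fin.cons v (fun i => (b' i : E)) : Fin (n + 1) → E) := by
      rw [orthonormal_iff_ite]
      intro i j
      refine Fin.cases ?_ (fun i => ?_) i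
      · refine Fin.cases ?_ (fun j => ?_) j
        · simp [inner_self_eq_norm_sq_to_K, hvn]
        · have h1 : ⟪v, (b' j : E)⟫_ℂ = 0 := (hmem _).1 (b' j).2
          have h2 : (0 : Fin (n+1)) ≠ j.succ := (Fin.succ_ne_zero j).symm
          simp [h1, h2]
      · refine Fin.cases ?_ (fun j => ?_) j
        · have h1 : ⟪v, (b' i : E)⟫_ℂ = 0 := (hmem _).1 (b' i).2
          have h1' : ⟪(b' i : E), v⟫_ℂ = 0 := by
            rw [← inner_conj_symm, h1, map_zero]
          simp [h1']
        · have := orthonormal_iff_ite.1 b'.orthonormal i j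
          simp only [Fin.cons_succ, Fin.succ_inj]
          rw [← this]
          rfl
    have hspan : ⊤ ≤ Submodule.span ℂ (Set.range (Fin.cons v (fun i => (b' i : E)) : Fin (n + 1) → E)) := by
      rw [hon.linearIndependent.span_eq_top_of_card_eq_finrank' (by simp [hE])]
    refine ⟨OrthonormalBasis.mk hon hspan, fun m => ?_⟩
    rw [LinearMap.trace_eq_sum_inner _ (OrthonormalBasis.mk hon hspan), Fin.sum_univ_succ,
      Fin.sum_univ_succ]
    simp only [OrthonormalBasis.coe_mk, Fin.cons_zero, Fin.cons_succ]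
    congr 1
    · rw [hAvm, hAv]
      simp [inner_self_eq_norm_sq_to_K, hvn]
    · have h1 := hb' m
      rw [LinearMap.trace_eq_sum_inner _ b'] at h1
      rw [Module.End.pow_restrict] at h1
      simpa only [Submodule.coe_inner, LinearMap.coe_restrict_apply] using h1

end Pool.Agent.J6H21.Steklov
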