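import Mathlib
import Pool.Agent.J6H21.Steklov.Schur

/-! Trace inequalities. -/

namespace Pool.Agent.J6H21.Steklov

open scoped InnerProductSpace
open Module

universe u

variable {E : Type u} [NormedAddCommGroup E] [InnerProductSpace ℂ E] [FiniteDimensional ℂ E]

/-- scalar Bregman inequality -/
theorem scalar_bregman (k : ℕ) (l m : ℝ) (hl : 0 ≤ l) (hm : 0 ≤ m) :
    m ^ (k + 2) + (k + 2) * m ^ (k + 1) * (l - m) + (k + 1) * m ^ k * (l - m) ^ 2
      ≤ l ^ (k + 2) := by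
  induction k with
  | zero =>
    simp only [Nat.cast_zero, zero_add, pow_one, pow_zero]
    nlinarith
  | succ k ih =>
    have h1 := mul_le_mul_of_nonneg_left ih hl
    have h2 : 0 ≤ (k + 1 : ℝ) * m ^ k * (l - m) ^ 2 * l := by positivity
    have h3 : l ^ (k + 1 + 2) = l * l ^ (k + 2) := by ring
    rw [h3]
    refine le_trans ?_ h1
    push_cast
    have h4 : l * (m ^ (k + 2) + (k + 2) * m ^ (k + 1) * (l - m) + (k + 1) * m ^ k * (l - m) ^ 2)
      - (m ^ (k + 1 + 2) + ((k : ℝ) + 1 + 2) * m ^ (k + 1 + 1) * (l - m)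
        + ((k : ℝ) + 1 + 1) * m ^ (k + 1) * (l - m) ^ 2) = (k + 1 : ℝ) * m ^ k * (l - m) ^ 2 * l := by
      ring
    linarith

section diag

variable {n : ℕ} {A : E →ₗ[ℂ] E} (b : OrthonormalBasis (Fin n) ℂ E) (l : Fin n → ℝ)

theorem inner_pow (hA : A.IsSymmetric) (hb : ∀ i, A (b i) = (l i : ℂ) • b i) (m : ℕ) (i : Fin n)
    (v : E) : ⟪b i, (A ^ m) v⟫_ℂ = (l i : ℂ) ^ m * ⟪b i, v⟫_ℂ := by
  induction m with
  | zero => simp
  | succ m ih =>
    rw [pow_succ', Module.End.mul_apply, ← hA, hb, inner_smul_left, ih, pow_succ']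
    simp only [Complex.conj_ofReal]
    ring

theorem inner_one (hA : A.IsSymmetric) (hb : ∀ i, A (b i) = (l i : ℂ) • b i) (i : Fin n)
    (v : E) : ⟪b i, A v⟫_ℂ = (l i : ℂ) * ⟪b i, v⟫_ℂ := by
  have := inner_pow b l hA hb 1 i v
  simpa using this

theorem quad_pow (hA : A.IsSymmetric) (hb : ∀ i, A (b i) = (l i : ℂ) • b i) (m : ℕ) (v : E) :
    (⟪v, (A ^ m) v⟫_ℂ).re = ∑ i, l i ^ m * ‖⟪b i, v⟫_ℂ‖ ^ 2 := by
  rw [← OrthonormalBasis.sum_inner_mul_inner b, Complex.re_sum]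
  refine Finset.sum_congr rfl fun i _ => ?_
  rw [inner_pow b l hA hb, ← inner_conj_symm v (b i)]
  have : (starRingEnd ℂ) ⟪b i, v⟫_ℂ * ((l i : ℂ) ^ m * ⟪b i, v⟫_ℂ)
      = ((l i ^ m * ‖⟪b i, v⟫_ℂ‖ ^ 2 : ℝ) : ℂ) := by
    have h := Complex.conj_mul' ⟪b i, v⟫_ℂ
    push_cast
    rw [← h]; ring
  rw [this, Complex.ofReal_re]

theorem norm_sq_apply (hA : A.IsSymmetric) (hb : ∀ i, A (b i) = (l i : ℂ) • b i) (v : E) :
    ‖A v‖ ^ 2 = ∑ i, l i ^ 2 * ‖⟪b i, v⟫_ℂ‖ ^ 2 := by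
  rw [← b.sum_sq_norm_inner_right]
  refine Finset.sum_congr rfl fun i _ => ?_
  rw [inner_one b l hA hb, norm_mul, mul_pow]
  simp

theorem norm_sq_sub (hA : A.IsSymmetric) (hb : ∀ i, A (b i) = (l i : ℂ) • b i) (v : E) (m : ℝ) :
    ‖A v - (m : ℂ) • v‖ ^ 2 = ∑ i, (l i - m) ^ 2 * ‖⟪b i, v⟫_ℂ‖ ^ 2 := by
  rw [← b.sum_sq_norm_inner_right]
  refine Finset.sum_congr rfl fun i _ => ?_
  rw [inner_sub_right, inner_one b l hA hb, inner_smul_right, ← sub_mul, norm_mul, mul_pow,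
    ← Complex.ofReal_sub, Complex.norm_real, Real.norm_eq_abs, sq_abs]

end diag

theorem exists_diag {n : ℕ} (hn : finrank ℂ E = n) {A : E →ₗ[ℂ] E} (hA : A.IsSymmetric) :
    ∃ (b : OrthonormalBasis (Fin n) ℂ E) (l : Fin n → ℝ), ∀ i, A (b i) = (l i : ℂ) • b i :=
  ⟨hA.eigenvectorBasis hn, hA.eigenvalues hn, fun i => hA.apply_eigenvectorBasis hn i⟩

theorem diag_nonneg {n : ℕ} {A : E →ₗ[ℂ] E} (b : OrthonormalBasis (Fin n) ℂ E) (l : Fin n → ℝ)
    (hb : ∀ i, A (b i) = (l i : ℂ) • b i) (hpos : ∀ v, 0 ≤ (⟪v, A v⟫_ℂ).re) (i : Fin n) :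
    0 ≤ l i := by
  have := hpos (b i)
  rw [hb, inner_smul_right, inner_self_eq_norm_sq_to_K, b.orthonormal.1 i] at this
  simpa using this

/-- Jensen for nonnegative symmetric operators. -/
theorem jensen {A : E →ₗ[ℂ] E} (hA : A.IsSymmetric)
    (hpos : ∀ v, 0 ≤ (⟪v, A v⟫_ℂ).re) (v : E) (hv : ‖v‖ = 1) (m : ℕ) :
    (⟪v, A v⟫_ℂ).re ^ m ≤ (⟪v, (A ^ m) v⟫_ℂ).re := by
  obtain ⟨b, l, hb⟩ := exists_diag rfl hA
  have h1 := quad_pow b l hA hb 1 v
  have h2 := quad_pow b l hA hb m v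
  rw [pow_one] at h1
  rw [h1, h2]
  have hw : ∑ i, ‖⟪b i, v⟫_ℂ‖ ^ 2 = 1 := by
    rw [b.sum_sq_norm_inner_right, hv]; norm_num
  have := Real.pow_arith_mean_le_arith_mean_pow Finset.univ (fun i => ‖⟪b i, v⟫_ℂ‖ ^ 2) l
    (fun i _ => by positivity) hw (fun i _ => diag_nonneg b l hb hpos i) m
  simp only [pow_one]
  calc _ = (∑ i, ‖⟪b i, v⟫_ℂ‖ ^ 2 * l i) ^ m := by
        congr 1; exact Finset.sum_congr rfl fun i _ => mul_comm _ _
    _ ≤ _ := this
    _ = _ := Finset.sum_congr rfl fun i _ => mul_comm _ _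

/-- Bregman inequality at an eigenvector of `P`, `H = P + D`. -/
theorem bregman {H : E →ₗ[ℂ] E} (hH : H.IsSymmetric)
    (hpos : ∀ v, 0 ≤ (⟪v, H v⟫_ℂ).re) (v : E) (hv : ‖v‖ = 1) (m : ℝ) (hm : 0 ≤ m) (k : ℕ) :
    m ^ (k + 2) + (k + 2) * m ^ (k + 1) * ((⟪v, H v⟫_ℂ).re - m)
      + (k + 1) * m ^ k * ‖H v - (m : ℂ) • v‖ ^ 2
      ≤ (⟪v, (H ^ (k + 2)) v⟫_ℂ).re := by
  obtain ⟨b, l, hb⟩ := exists_diag rfl hH
  have h1 := quad_pow b l hH hb 1 v
  have h2 := quad_pow b l hH hb (k + 2) v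
  rw [pow_one] at h1
  rw [h1, h2, norm_sq_sub b l hH hb]
  have hw : ∑ i, ‖⟪b i, v⟫_ℂ‖ ^ 2 = 1 := by
    rw [b.sum_sq_norm_inner_right, hv]; norm_num
  have key : ∀ i, (m ^ (k + 2) + (k + 2) * m ^ (k + 1) * (l i - m)
      + (k + 1) * m ^ k * (l i - m) ^ 2) * ‖⟪b i, v⟫_ℂ‖ ^ 2
      ≤ l i ^ (k + 2) * ‖⟪b i, v⟫_ℂ‖ ^ 2 := fun i =>
    mul_le_mul_of_nonneg_right (scalar_bregman k (l i) m (diag_nonneg b l hb hpos i) hm)
      (by positivity)
  refine le_trans (le_of_eq ?_) (Finset.sum_le_sum fun i _ => key i)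
  simp only [pow_one]
  have e1 : (m : ℝ) ^ (k + 2) = ∑ i, m ^ (k + 2) * ‖⟪b i, v⟫_ℂ‖ ^ 2 := by
    rw [← Finset.mul_sum, hw, mul_one]
  have e2 : ((∑ i, l i * ‖⟪b i, v⟫_ℂ‖ ^ 2) - m) = ∑ i, (l i - m) * ‖⟪b i, v⟫_ℂ‖ ^ 2 := by
    simp only [sub_mul, Finset.sum_sub_distrib]
    rw [← Finset.mul_sum, hw, mul_one]
  rw [e2, Finset.mul_sum, Finset.mul_sum]
  conv_lhs => rw [e1]
  rw [← Finset.sum_add_distrib, ← Finset.sum_add_distrib]
  refine Finset.sum_congr rfl fun i _ => ?_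
  ring

/-- `∑ |d_i|^k ≥ ∑ ‖D b_n‖^k`. -/
theorem schatten_ge {n : ℕ} {D : E →ₗ[ℂ] E} (hD : D.IsSymmetric)
    (b : OrthonormalBasis (Fin n) ℂ E) (l : Fin n → ℝ) (hb : ∀ i, D (b i) = (l i : ℂ) • b i)
    {ι : Type*} [Fintype ι] (e : OrthonormalBasis ι ℂ E) (k : ℕ) (hk : 2 ≤ k) :
    ∑ j, ‖D (e j)‖ ^ k ≤ ∑ i, |l i| ^ k := by
  have h1 : ∀ j, ‖D (e j)‖ ^ k ≤ ∑ i, ‖⟪b i, e j⟫_ℂ‖ ^ 2 * |l i| ^ k := by
    intro j
    have hw : ∑ i, ‖⟪b i, e j⟫_ℂ‖ ^ 2 = 1 := by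
      rw [b.sum_sq_norm_inner_right, e.orthonormal.1 j]; norm_num
    have hk' : (1 : ℝ) ≤ (k : ℝ) / 2 := by
      have : (2 : ℝ) ≤ k := by exact_mod_cast hk
      linarith
    have h := Real.rpow_arith_mean_le_arith_mean_rpow Finset.univ
      (fun i => ‖⟪b i, e j⟫_ℂ‖ ^ 2) (fun i => l i ^ 2)
      (fun i _ => by positivity) hw (fun i _ => by positivity) hk'
    have e1 : ∑ i, ‖⟪b i, e j⟫_ℂ‖ ^ 2 * l i ^ 2 = ‖D (e j)‖ ^ 2 := by
      rw [norm_sq_apply b l hD hb]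
      exact Finset.sum_congr rfl fun i _ => mul_comm _ _
    have e2 : ∀ x : ℝ, 0 ≤ x → (x ^ 2) ^ ((k : ℝ) / 2) = x ^ k := by
      intro x hx
      rw [← Real.rpow_natCast x 2, ← Real.rpow_mul hx, ← Real.rpow_natCast x k]
      congr 1
      push_cast; ring
    rw [e1, e2 _ (norm_nonneg _)] at h
    refine h.trans (le_of_eq ?_)
    refine Finset.sum_congr rfl fun i _ => ?_
    rw [← sq_abs (l i), e2 _ (abs_nonneg _)]
  refine (Finset.sum_le_sum fun j _ => h1 j).trans (le_of_eq ?_)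
  rw [Finset.sum_comm]
  refine Finset.sum_congr rfl fun i _ => ?_
  rw [← Finset.sum_mul]
  have : ∑ j, ‖⟪b i, e j⟫_ℂ‖ ^ 2 = 1 := by
    rw [e.sum_sq_norm_inner_left, b.orthonormal.1 i]; norm_num
  rw [this, one_mul]

/-- The main trace inequality. -/
theorem trace_ineq {T S : E →ₗ[ℂ] E} (hT : T.IsSymmetric) (hS : S.IsSymmetric)
    (hSS : S * S = 1) {ι : Type*} [Fintype ι] (e : OrthonormalBasis ι ℂ E) (k : ℕ) :
    ‖LinearMap.trace ℂ E ((T * S) ^ (2 * (k + 2)))‖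
      + (k + 1) * ∑ j, ‖((1 / 2 : ℂ) • (T * T - S * (T * T) * S)) (e j)‖ ^ (k + 2)
      ≤ (LinearMap.trace ℂ E (T ^ (2 * (k + 2)))).re := by
  set H : E →ₗ[ℂ] E := T * T with hH_def
  set P : E →ₗ[ℂ] E := (1 / 2 : ℂ) • (H + S * H * S) with hP_def
  set D : E →ₗ[ℂ] E := (1 / 2 : ℂ) • (H - S * H * S) with hD_def
  have hHs : H.IsSymmetric := by
    intro x y
    rw [hH_def, Module.End.mul_apply, Module.End.mul_apply, hT, hT]
  have hSHSs : (S * H * S).IsSymmetric := by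
    intro x y
    simp only [Module.End.mul_apply]
    rw [hS, hHs, hS]
  have hSx : ∀ x, S (S x) = x := by
    intro x
    have := congrArg (fun f : E →ₗ[ℂ] E => f x) hSS
    simpa using this
  have hSnorm : ∀ x, ‖S x‖ = ‖x‖ := by
    intro x
    have h1 : ⟪S x, S x⟫_ℂ = ⟪x, x⟫_ℂ := by
      rw [hS, hSx]
    rw [inner_self_eq_norm_sq_to_K, inner_self_eq_norm_sq_to_K] at h1
    have h2 : ‖S x‖ ^ 2 = ‖x‖ ^ 2 := by exact_mod_cast h1
    exact (pow_left_inj₀ (norm_nonneg _) (norm_nonneg _) two_ne_zero).1 h2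
  have hquadH : ∀ v, (⟪v, H v⟫_ℂ) = ((‖T v‖ ^ 2 : ℝ) : ℂ) := by
    intro v
    rw [hH_def, Module.End.mul_apply, ← hT, inner_self_eq_norm_sq_to_K]
    norm_cast
  have hquadSHS : ∀ v, (⟪v, (S * H * S) v⟫_ℂ) = ((‖T (S v)‖ ^ 2 : ℝ) : ℂ) := by
    intro v
    simp only [Module.End.mul_apply]
    rw [← hS, hquadH]
  have hHpos : ∀ v, 0 ≤ (⟪v, H v⟫_ℂ).re := by
    intro v; rw [hquadH, Complex.ofReal_re]; positivity
  have hhalf : (starRingEnd ℂ) (1 / 2 : ℂ) = 1 / 2 := by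
    rw [show (1 / 2 : ℂ) = ((1 / 2 : ℝ) : ℂ) by push_cast; rfl, Complex.conj_ofReal]
  have hPs : P.IsSymmetric := by
    intro x y
    rw [hP_def]
    simp only [LinearMap.smul_apply, LinearMap.add_apply, inner_smul_left, inner_smul_right,
      inner_add_left, inner_add_right]
    rw [hHs, hSHSs, hhalf]
  have hDs : D.IsSymmetric := by
    intro x y
    rw [hD_def]
    simp only [LinearMap.smul_apply, LinearMap.sub_apply, inner_smul_left, inner_smul_right,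
      inner_sub_left, inner_sub_right]
    rw [hHs, hSHSs, hhalf]
  have hquadP : ∀ v, (⟪v, P v⟫_ℂ).re = (‖T v‖ ^ 2 + ‖T (S v)‖ ^ 2) / 2 := by
    intro v
    have : (⟪v, P v⟫_ℂ) = (((‖T v‖ ^ 2 + ‖T (S v)‖ ^ 2) / 2 : ℝ) : ℂ) := by
      rw [hP_def]
      simp only [LinearMap.smul_apply, LinearMap.add_apply, inner_smul_right, inner_add_right]
      rw [hquadH, hquadSHS]
      push_cast; ring
    rw [this, Complex.ofReal_re]
  have hquadD : ∀ v, (⟪v, D v⟫_ℂ) = (((‖T v‖ ^ 2 - ‖T (S v)‖ ^ 2) / 2 : ℝ) : ℂ) := by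
    intro v
    rw [hD_def]
    simp only [LinearMap.smul_apply, LinearMap.sub_apply, inner_smul_right, inner_sub_right]
    rw [hquadH, hquadSHS]
    push_cast; ring
  have hPpos : ∀ v, 0 ≤ (⟪v, P v⟫_ℂ).re := by
    intro v; rw [hquadP]; positivity
  have hHPD : H = P + D := by
    rw [hP_def, hD_def, ← smul_add]
    have : H + S * H * S + (H - S * H * S) = (2 : ℂ) • H := by
      rw [two_smul]; abel
    rw [this, smul_smul]; norm_num
  -- Step 1
  obtain ⟨u, hu⟩ := schur_trace _ E rfl (T * S)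
  have step1 : ‖LinearMap.trace ℂ E ((T * S) ^ (2 * (k + 2)))‖
      ≤ (LinearMap.trace ℂ E (P ^ (k + 2))).re := by
    rw [hu, LinearMap.trace_eq_sum_inner _ u, Complex.re_sum]
    refine (norm_sum_le _ _).trans (Finset.sum_le_sum fun i _ => ?_)
    have hui : ‖u i‖ = 1 := u.orthonormal.1 i
    refine le_trans ?_ (jensen hPs hPpos (u i) hui (k + 2))
    rw [norm_pow, pow_mul]
    refine pow_le_pow_left₀ (by positivity) ?_ _
    rw [hquadP]
    have h1 : ‖⟪u i, (T * S) (u i)⟫_ℂ‖ ≤ ‖T (S (u i))‖ := by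
      refine (norm_inner_le_norm _ _).trans ?_
      rw [hui, one_mul]
      rfl
    have h2 : ‖⟪u i, (T * S) (u i)⟫_ℂ‖ ≤ ‖T (u i)‖ := by
      rw [Module.End.mul_apply, ← hT]
      refine (norm_inner_le_norm _ _).trans ?_
      rw [hSnorm, hui, mul_one]
    have h3 : ‖⟪u i, (T * S) (u i)⟫_ℂ‖ ^ 2 ≤ ‖T (S (u i))‖ ^ 2 :=
      pow_le_pow_left₀ (norm_nonneg _) h1 2
    have h4 : ‖⟪u i, (T * S) (u i)⟫_ℂ‖ ^ 2 ≤ ‖T (u i)‖ ^ 2 :=
      pow_le_pow_left₀ (norm_nonneg _) h2 2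
    linarith
  -- Step 2
  obtain ⟨v, μ, hv⟩ := exists_diag (E := E) rfl hPs
  have hμ : ∀ i, 0 ≤ μ i := diag_nonneg v μ hv hPpos
  have hPv : ∀ (m : ℕ) i, (P ^ m) (v i) = ((μ i : ℂ) ^ m) • v i := by
    intro m i
    induction m with
    | zero => simp
    | succ m ih =>
      rw [pow_succ', Module.End.mul_apply, ih, map_smul, hv, smul_smul, pow_succ]
  have hSPS : ∀ x, S (P (S x)) = P x := by
    intro x
    rw [hP_def]
    simp only [LinearMap.smul_apply, LinearMap.add_apply, Module.End.mul_apply, map_smul, map_add,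
      hSx]
    rw [add_comm]
  have hSDS : ∀ x, S (D (S x)) = - D x := by
    intro x
    rw [hD_def]
    simp only [LinearMap.smul_apply, LinearMap.sub_apply, Module.End.mul_apply, map_smul, map_sub,
      hSx]
    rw [← smul_neg, neg_sub]
  have hSP : S * P = P * S := by
    ext x
    have := hSPS (S x)
    rw [hSx] at this
    simpa using this
  have hSD : S * D = - (D * S) := by
    ext x
    have := hSDS (S x)
    rw [hSx] at this
    simpa using this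
  have htr0 : LinearMap.trace ℂ E (D * P ^ (k + 1)) = 0 := by
    have hc : S * P ^ (k + 1) = P ^ (k + 1) * S := (Commute.pow_right (show Commute S P from hSP) _)
    have h1 : LinearMap.trace ℂ E (S * (D * P ^ (k + 1)) * S)
        = LinearMap.trace ℂ E (D * P ^ (k + 1)) := by
      rw [LinearMap.trace_mul_comm, ← mul_assoc, hSS, one_mul]
    have h2 : S * (D * P ^ (k + 1)) * S = - (D * P ^ (k + 1)) := by
      rw [← mul_assoc, hSD, neg_mul, neg_mul, mul_assoc D, hc, mul_assoc, mul_assoc, hSS, mul_one]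
    rw [h2, map_neg] at h1
    have h3 : LinearMap.trace ℂ E (D * P ^ (k + 1)) + LinearMap.trace ℂ E (D * P ^ (k + 1)) = 0 := by
      nth_rewrite 1 [← h1]; ring
    have h4 : (2 : ℂ) * LinearMap.trace ℂ E (D * P ^ (k + 1)) = 0 := by rw [two_mul]; exact h3
    exact (mul_eq_zero.1 h4).resolve_left two_ne_zero
  have hT2 : T ^ (2 * (k + 2)) = H ^ (k + 2) := by rw [pow_mul, pow_two]
  have step2 : (LinearMap.trace ℂ E (P ^ (k + 2))).re
      + (k + 1) * ∑ i, μ i ^ k * ‖D (v i)‖ ^ 2 ≤ (LinearMap.trace ℂ E (T ^ (2 * (k + 2)))).re := by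
    rw [hT2, LinearMap.trace_eq_sum_inner _ v, LinearMap.trace_eq_sum_inner _ v, Complex.re_sum,
      Complex.re_sum]
    have hterm : ∀ i, μ i ^ (k + 2) + (k + 2) * μ i ^ (k + 1) * (⟪v i, D (v i)⟫_ℂ).re
        + (k + 1) * μ i ^ k * ‖D (v i)‖ ^ 2 ≤ (⟪v i, (H ^ (k + 2)) (v i)⟫_ℂ).re := by
      intro i
      have h := bregman hHs hHpos (v i) (v.orthonormal.1 i) (μ i) (hμ i) k
      have hHv : H (v i) = (μ i : ℂ) • v i + D (v i) := by
        rw [← hv i]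
        exact congrArg (fun f : E →ₗ[ℂ] E => f (v i)) hHPD
      have e1 : (⟪v i, H (v i)⟫_ℂ).re - μ i = (⟪v i, D (v i)⟫_ℂ).re := by
        rw [hHv, inner_add_right, inner_smul_right, inner_self_eq_norm_sq_to_K,
          v.orthonormal.1 i]
        simp
      have e2 : H (v i) - (μ i : ℂ) • v i = D (v i) := by rw [hHv]; abel
      rw [e1, e2] at h
      exact h
    have hsum := Finset.sum_le_sum (s := Finset.univ) fun i _ => hterm i
    refine le_trans (le_of_eq ?_) hsum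
    rw [Finset.sum_add_distrib, Finset.sum_add_distrib]
    have f1 : ∀ i, (⟪v i, (P ^ (k + 2)) (v i)⟫_ℂ).re = μ i ^ (k + 2) := by
      intro i
      rw [hPv, inner_smul_right, inner_self_eq_norm_sq_to_K, v.orthonormal.1 i,
        ← Complex.ofReal_pow, Complex.re_ofReal_mul]
      simp
    have f2 : ∑ i, (k + 2 : ℝ) * μ i ^ (k + 1) * (⟪v i, D (v i)⟫_ℂ).re = 0 := by
      have h3 := htr0
      rw [LinearMap.trace_eq_sum_inner _ v] at h3
      have h4 := congrArg Complex.re h3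
      rw [Complex.re_sum] at h4
      have h5 : ∀ i, (⟪v i, (D * P ^ (k + 1)) (v i)⟫_ℂ).re
          = μ i ^ (k + 1) * (⟪v i, D (v i)⟫_ℂ).re := by
        intro i
        rw [Module.End.mul_apply, hPv, map_smul, inner_smul_right, ← Complex.ofReal_pow,
          Complex.re_ofReal_mul]
      simp only [h5, Complex.zero_re] at h4
      simp only [mul_assoc]
      rw [← Finset.mul_sum, h4, mul_zero]
    rw [f2, add_zero, Finset.mul_sum]
    congr 1
    · exact Finset.sum_congr rfl fun i _ => f1 i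
    · exact Finset.sum_congr rfl fun i _ => by ring
  -- Step 3
  obtain ⟨w, d, hw⟩ := exists_diag (E := E) rfl hDs
  have step3 : ∑ i, |d i| ^ (k + 2) ≤ ∑ i, μ i ^ k * ‖D (v i)‖ ^ 2 := by
    have g1 : ∑ i, μ i ^ k * ‖D (v i)‖ ^ 2 = (LinearMap.trace ℂ E (D * P ^ k * D)).re := by
      rw [LinearMap.trace_mul_comm, LinearMap.trace_eq_sum_inner _ v, Complex.re_sum]
      refine Finset.sum_congr rfl fun i _ => ?_
      simp only [Module.End.mul_apply]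
      rw [hPv, map_smul, map_smul, inner_smul_right, ← hDs, inner_self_eq_norm_sq_to_K,
        ← Complex.ofReal_pow, Complex.re_ofReal_mul]
      norm_cast
    rw [g1, LinearMap.trace_eq_sum_inner _ w, Complex.re_sum]
    refine Finset.sum_le_sum fun i _ => ?_
    simp only [Module.End.mul_apply]
    rw [← hDs, hw, map_smul, inner_smul_left, inner_smul_right, Complex.conj_ofReal, ← mul_assoc,
      ← Complex.ofReal_mul, Complex.re_ofReal_mul]
    have hwi : ‖w i‖ = 1 := w.orthonormal.1 i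
    have h1 := jensen hPs hPpos (w i) hwi k
    have h2 : |d i| ≤ (⟪w i, P (w i)⟫_ℂ).re := by
      have h3 := hquadD (w i)
      rw [hw, inner_smul_right, inner_self_eq_norm_sq_to_K, hwi] at h3
      have h4 : d i = (‖T (w i)‖ ^ 2 - ‖T (S (w i))‖ ^ 2) / 2 := by
        have h5 := congrArg Complex.re h3
        rw [Complex.ofReal_re] at h5
        rw [← h5]; simp
      rw [hquadP, h4, abs_le]
      have := sq_nonneg ‖T (w i)‖
      have := sq_nonneg ‖T (S (w i))‖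
      constructor <;> linarith
    have h6 : |d i| ^ k ≤ (⟪w i, (P ^ k) (w i)⟫_ℂ).re :=
      (pow_le_pow_left₀ (abs_nonneg _) h2 k).trans h1
    calc |d i| ^ (k + 2) = (d i * d i) * |d i| ^ k := by
          rw [pow_add, ← sq, ← sq_abs (d i)]; ring
      _ ≤ _ := mul_le_mul_of_nonneg_left h6 (mul_self_nonneg _)
  have step4 : ∑ j, ‖D (e j)‖ ^ (k + 2) ≤ ∑ i, |d i| ^ (k + 2) :=
    schatten_ge hDs w d hw e (k + 2) (by omega)
  have hk1 : (0 : ℝ) ≤ k + 1 := by positivity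
  calc _ ≤ (LinearMap.trace ℂ E (P ^ (k + 2))).re + (k + 1) * ∑ i, μ i ^ k * ‖D (v i)‖ ^ 2 := by
        refine add_le_add step1 (mul_le_mul_of_nonneg_left (step4.trans step3) hk1)
    _ ≤ _ := step2

end Pool.Agent.J6H21.Steklov
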