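import Mathlib
import Pool.Agent.J6H21.Steklov.TraceIneq

/-! Matrix form of the trace inequality. -/

namespace Pool.Agent.J6H21.Steklov

open scoped InnerProductSpace
open Module Matrix

variable {ι : Type} [Fintype ι] [DecidableEq ι]

theorem toE_mul (A B : Matrix ι ι ℂ) :
    toEuclideanLin (A * B) = (toEuclideanLin A * toEuclideanLin B : Module.End ℂ (EuclideanSpace ℂ ι)) := by
  refine LinearMap.ext fun x => ?_
  rw [Module.End.mul_apply, toLpLin_apply, toLpLin_apply, toLpLin_apply]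
  simp [Matrix.mulVec_mulVec]

theorem toE_one :
    toEuclideanLin (1 : Matrix ι ι ℂ) = (1 : Module.End ℂ (EuclideanSpace ℂ ι)) := by
  refine LinearMap.ext fun x => ?_
  rw [toLpLin_apply]
  simp

theorem toE_pow (A : Matrix ι ι ℂ) (m : ℕ) :
    toEuclideanLin (A ^ m) = ((toEuclideanLin A) ^ m : Module.End ℂ (EuclideanSpace ℂ ι)) := by
  induction m with
  | zero => rw [pow_zero, pow_zero, toE_one]
  | succ m ih => rw [pow_succ, pow_succ, toE_mul, ih]

theorem toE_apply_basis (A : Matrix ι ι ℂ) (i j : ι) :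
    (toEuclideanLin A (EuclideanSpace.basisFun ι ℂ j)) i = A i j := by
  rw [toLpLin_apply]
  simp [EuclideanSpace.basisFun_apply]

theorem toE_trace (A : Matrix ι ι ℂ) :
    LinearMap.trace ℂ _ (toEuclideanLin A : EuclideanSpace ℂ ι →ₗ[ℂ] EuclideanSpace ℂ ι)
      = A.trace := by
  rw [LinearMap.trace_eq_sum_inner _ (EuclideanSpace.basisFun ι ℂ), Matrix.trace]
  refine Finset.sum_congr rfl fun i _ => ?_
  rw [Matrix.diag_apply, ← toE_apply_basis A i i]
  rw [EuclideanSpace.basisFun_apply, EuclideanSpace.inner_single_left]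
  simp

theorem matrix_ineq (T : Matrix ι ι ℂ) (hT : T.IsHermitian) (σ : ι → ℝ)
    (hσ : ∀ i, σ i * σ i = 1) (k : ℕ) :
    ‖((T * diagonal (fun i => (σ i : ℂ))) ^ (2 * (k + 2))).trace‖
      + (k + 1) * ∑ j, (√(∑ i, ‖(((1 - σ j * σ i) / 2 : ℝ) : ℂ) * (T * T) j i‖ ^ 2)) ^ (k + 2)
      ≤ ((T ^ (2 * (k + 2))).trace).re := by
  set S : Matrix ι ι ℂ := diagonal (fun i => (σ i : ℂ)) with hS_def
  have hTs : (toEuclideanLin T).IsSymmetric := isSymmetric_toEuclideanLin_iff.2 hT
  have hSh : S.IsHermitian := by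
    rw [hS_def]
    refine Matrix.isHermitian_diagonal_iff.2 fun i => ?_
    exact Complex.conj_ofReal _
  have hSs : (toEuclideanLin S).IsSymmetric := isSymmetric_toEuclideanLin_iff.2 hSh
  have hSS : S * S = 1 := by
    rw [hS_def, diagonal_mul_diagonal, ← diagonal_one]
    congr 1
    funext i
    rw [← Complex.ofReal_mul, hσ, Complex.ofReal_one]
  have hSS' : (toEuclideanLin S * toEuclideanLin S : Module.End ℂ (EuclideanSpace ℂ ι)) = 1 := by
    rw [← toE_mul, hSS, toE_one]
  have h := trace_ineq hTs hSs hSS' (EuclideanSpace.basisFun ι ℂ) k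
  rw [← toE_pow, toE_trace, ← toE_mul, ← toE_mul, ← toE_mul, ← toE_pow, toE_trace, ← toE_mul,
    ← map_sub, ← map_smul] at h
  have hDj : ∀ j, ‖(toEuclideanLin ((1 / 2 : ℂ) • (T * T - S * (T * T) * S)))
      (EuclideanSpace.basisFun ι ℂ j)‖
      = √(∑ i, ‖(((1 - σ j * σ i) / 2 : ℝ) : ℂ) * (T * T) j i‖ ^ 2) := by
    intro j
    rw [EuclideanSpace.norm_eq]
    congr 1
    refine Finset.sum_congr rfl fun i _ => ?_
    rw [toE_apply_basis]
    have hHs : (T * T) i j = (starRingEnd ℂ) ((T * T) j i) := by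
      have hTT : (T * T).IsHermitian := by
        rw [Matrix.IsHermitian, Matrix.conjTranspose_mul, hT]
      exact (hTT.apply i j).symm
    have e1 : ((1 / 2 : ℂ) • (T * T - S * (T * T) * S)) i j
        = (((1 - σ j * σ i) / 2 : ℝ) : ℂ) * (T * T) i j := by
      rw [hS_def]
      simp only [Matrix.smul_apply, Matrix.sub_apply, Matrix.mul_diagonal, Matrix.diagonal_mul,
        smul_eq_mul]
      push_cast
      ring
    rw [e1, hHs, norm_mul, norm_mul, RCLike.norm_conj]
  simp only [hDj] at h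
  exact h

end Pool.Agent.J6H21.Steklov
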