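import Mathlib

/-! Window estimates. -/

namespace Pool.Agent.J6H21.Steklov

/-- `G_s(p) = ∑_j |p-j| c_j c_{s-j}`. -/
noncomputable def Gf (c : ℤ → ℂ) (d s p : ℤ) : ℂ :=
  ∑ j ∈ Finset.Icc (-d) d, ((|p - j| : ℤ) : ℂ) * (c j * c (s - j))

theorem Gf_second (c : ℤ → ℂ) (d : ℤ) (hc : ∀ n, d < |n| → c n = 0) (s p : ℤ) :
    Gf c d s (p + 1) - 2 * Gf c d s p + Gf c d s (p - 1) = 2 * (c p * c (s - p)) := by
  unfold Gf
  rw [Finset.mul_sum, ← Finset.sum_sub_distrib, ← Finset.sum_add_distrib]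
  have h1 : ∀ j ∈ Finset.Icc (-d) d,
      ((|p + 1 - j| : ℤ) : ℂ) * (c j * c (s - j)) - 2 * (((|p - j| : ℤ) : ℂ) * (c j * c (s - j)))
        + ((|p - 1 - j| : ℤ) : ℂ) * (c j * c (s - j))
      = if j = p then 2 * (c j * c (s - j)) else 0 := by
    intro j _
    have h2 : (|p + 1 - j| : ℤ) - 2 * |p - j| + |p - 1 - j| = if j = p then 2 else 0 := by
      split_ifs with h
      · subst h; simp
      · rcases lt_or_gt_of_ne h with h | h
        · rw [abs_of_nonneg (by omega), abs_of_nonneg (by omega), abs_of_nonneg (by omega)]; ring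
        · rw [abs_of_nonpos (by omega), abs_of_nonpos (by omega), abs_of_nonpos (by omega)]; ring
    have h3 : ((|p + 1 - j| : ℤ) : ℂ) - 2 * ((|p - j| : ℤ) : ℂ) + ((|p - 1 - j| : ℤ) : ℂ)
        = if j = p then 2 else 0 := by
      have := congrArg (fun z : ℤ => (z : ℂ)) h2
      push_cast at this ⊢
      rw [this]
    calc _ = (((|p + 1 - j| : ℤ) : ℂ) - 2 * ((|p - j| : ℤ) : ℂ) + ((|p - 1 - j| : ℤ) : ℂ))
          * (c j * c (s - j)) := by ring
      _ = _ := by rw [h3]; split_ifs <;> ring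
  rw [Finset.sum_congr rfl h1, Finset.sum_ite_eq']
  split_ifs with h
  · rfl
  · have : c p = 0 := by
      apply hc
      rw [Finset.mem_Icc] at h
      by_contra hcon
      exact h (abs_le.1 (not_lt.1 hcon))
    rw [this]; ring

theorem sum_Icc_eq_tsum (F : ℤ → ℂ) (A B : ℤ) (h : ∀ p, p ∉ Finset.Icc A B → F p = 0) :
    ∑ p ∈ Finset.Icc A B, F p = ∑' p, F p := (tsum_eq_sum h).symm

theorem second_diff (G φ : ℤ → ℂ) (A B : ℤ) (hφ : ∀ p, p ≤ A ∨ B ≤ p → φ p = 0) :
    ∑ p ∈ Finset.Icc A B, G p * (φ (p + 1) - 2 * φ p + φ (p - 1))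
      = ∑ p ∈ Finset.Icc A B, (G (p + 1) - 2 * G p + G (p - 1)) * φ p := by
  have h1 : ∑ p ∈ Finset.Icc A B, G p * φ (p + 1) = ∑ p ∈ Finset.Icc A B, G (p - 1) * φ p := by
    rw [sum_Icc_eq_tsum, sum_Icc_eq_tsum]
    · rw [← (Equiv.addRight (1 : ℤ)).tsum_eq (fun p => G (p - 1) * φ p)]
      refine tsum_congr fun p => ?_
      simp
    · intro p hp
      rw [Finset.mem_Icc] at hp
      rw [hφ p (by omega), mul_zero]
    · intro p hp
      rw [Finset.mem_Icc] at hp
      rw [hφ (p + 1) (by omega), mul_zero]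
  have h2 : ∑ p ∈ Finset.Icc A B, G p * φ (p - 1) = ∑ p ∈ Finset.Icc A B, G (p + 1) * φ p := by
    rw [sum_Icc_eq_tsum, sum_Icc_eq_tsum]
    · rw [← (Equiv.addRight (1 : ℤ)).tsum_eq (fun p => G p * φ (p - 1))]
      refine tsum_congr fun p => ?_
      simp
    · intro p hp
      rw [Finset.mem_Icc] at hp
      rw [hφ p (by omega), mul_zero]
    · intro p hp
      rw [Finset.mem_Icc] at hp
      rw [hφ (p - 1) (by omega), mul_zero]
  calc _ = ∑ p ∈ Finset.Icc A B, G p * φ (p + 1) - 2 * ∑ p ∈ Finset.Icc A B, G p * φ p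
        + ∑ p ∈ Finset.Icc A B, G p * φ (p - 1) := by
        rw [Finset.mul_sum, ← Finset.sum_sub_distrib, ← Finset.sum_add_distrib]
        exact Finset.sum_congr rfl fun p _ => by ring
    _ = _ := by
        rw [h1, h2, Finset.mul_sum, ← Finset.sum_sub_distrib, ← Finset.sum_add_distrib]
        exact Finset.sum_congr rfl fun p _ => by ring

/-- integer bump on `[0,L]` -/
def bump (L x : ℤ) : ℤ := if 0 ≤ x ∧ x ≤ L then (x * (L - x)) ^ 2 else 0

theorem bump_of_out (L x : ℤ) (h : x ≤ 0 ∨ L ≤ x) : bump L x = 0 := by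
  unfold bump
  split_ifs with h1
  · rcases h with h | h
    · have : x = 0 := by omega
      rw [this]; ring
    · have : x = L := by omega
      rw [this]; ring
  · rfl

theorem bump_of_in (L x : ℤ) (h : 0 ≤ x ∧ x ≤ L) : bump L x = (x * (L - x)) ^ 2 := if_pos h

theorem bump_nonneg (L x : ℤ) : 0 ≤ bump L x := by
  unfold bump; split_ifs <;> positivity

theorem bump_le (L x : ℤ) (hL : 1 ≤ L) : bump L x ≤ L ^ 4 := by
  unfold bump
  split_ifs with h
  · have h1 : x * (L - x) ≤ L ^ 2 := by nlinarith [h.1, h.2]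
    have h2 : 0 ≤ x * (L - x) := mul_nonneg h.1 (by omega)
    calc (x * (L - x)) ^ 2 ≤ (L ^ 2) ^ 2 := pow_le_pow_left₀ h2 h1 2
      _ = L ^ 4 := by ring
  · positivity

theorem bump_diff (L x : ℤ) (hL : 1 ≤ L) : |bump L (x + 1) - bump L x| ≤ 2 * L ^ 3 := by
  have hpos : 0 ≤ 2 * L ^ 3 := by positivity
  by_cases h : 0 ≤ x ∧ x + 1 ≤ L
  · rw [bump_of_in L x (by omega), bump_of_in L (x + 1) (by omega)]
    have e : ((x + 1) * (L - (x + 1))) ^ 2 - (x * (L - x)) ^ 2
        = (L - 2 * x - 1) * ((x + 1) * (L - (x + 1)) + x * (L - x)) := by ring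
    rw [e, abs_mul]
    have h1 : |L - 2 * x - 1| ≤ L := abs_le.2 ⟨by omega, by omega⟩
    have h2 : 0 ≤ (x + 1) * (L - (x + 1)) := mul_nonneg (by omega) (by omega)
    have h3 : 0 ≤ x * (L - x) := mul_nonneg (by omega) (by omega)
    have h4 : (x + 1) * (L - (x + 1)) ≤ L ^ 2 := by nlinarith [h.1, h.2]
    have h5 : x * (L - x) ≤ L ^ 2 := by nlinarith [h.1, h.2]
    have h6 : |(x + 1) * (L - (x + 1)) + x * (L - x)| ≤ 2 * L ^ 2 := by
      rw [abs_of_nonneg (by linarith)]; linarith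
    calc _ ≤ L * (2 * L ^ 2) := mul_le_mul h1 h6 (abs_nonneg _) (by omega)
      _ = _ := by ring
  · have : x < 0 ∨ L ≤ x := by omega
    rw [bump_of_out L x (by omega), bump_of_out L (x + 1) (by omega)]
    simpa using hpos

theorem bump_second (L x : ℤ) (hL : 7 ≤ L) :
    |bump L (x + 1) - 2 * bump L x + bump L (x - 1)| ≤ 5 * L ^ 2 := by
  have hpos : 0 ≤ 5 * L ^ 2 := by positivity
  rcases lt_trichotomy x 0 with h | h | h
  · rw [bump_of_out L x (by omega), bump_of_out L (x + 1) (by omega),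
      bump_of_out L (x - 1) (by omega)]
    simpa using hpos
  · subst h
    rw [bump_of_out L 0 (by omega), bump_of_in L (0 + 1) (by omega),
      bump_of_out L (0 - 1) (by omega)]
    rw [abs_le]
    constructor <;> nlinarith
  · rcases lt_trichotomy x L with h' | h' | h'
    · rw [bump_of_in L x (by omega), bump_of_in L (x + 1) (by omega),
        bump_of_in L (x - 1) (by omega)]
      have e : ((x + 1) * (L - (x + 1))) ^ 2 - 2 * (x * (L - x)) ^ 2
          + ((x - 1) * (L - (x - 1))) ^ 2 = - 4 * (x * (L - x)) + 2 + 2 * (L - 2 * x) ^ 2 := by ring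
      rw [e]
      have h1 : 0 ≤ x * (L - x) := mul_nonneg (by omega) (by omega)
      have h2 : 4 * (x * (L - x)) = L ^ 2 - (L - 2 * x) ^ 2 := by ring
      have h3 : 0 ≤ (L - 2 * x) ^ 2 := by positivity
      have h4 : (L - 2 * x) ^ 2 ≤ L ^ 2 := by linarith
      have h5 : 2 ≤ L ^ 2 := by nlinarith
      rw [abs_le]
      constructor <;> linarith
    · subst h'
      rw [bump_of_out x x (by omega), bump_of_out x (x + 1) (by omega),
        bump_of_in x (x - 1) (by omega)]
      rw [abs_le]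
      constructor <;> nlinarith
    · rw [bump_of_out L x (by omega), bump_of_out L (x + 1) (by omega),
        bump_of_out L (x - 1) (by omega)]
      simpa using hpos

/-- product rule for second differences of a product, bounded -/
theorem prod_second (L : ℤ) (hL : 7 ≤ L) (x y : ℤ) :
    |bump L (x + 1) * bump L (y - 1) - 2 * (bump L x * bump L y) + bump L (x - 1) * bump L (y + 1)|
      ≤ 18 * L ^ 6 := by
  have e : bump L (x + 1) * bump L (y - 1) - 2 * (bump L x * bump L y)
      + bump L (x - 1) * bump L (y + 1)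
      = bump L y * (bump L (x + 1) - 2 * bump L x + bump L (x - 1))
        + bump L x * (bump L (y + 1) - 2 * bump L y + bump L (y - 1))
        + (bump L (x + 1) - bump L x) * (bump L (y - 1) - bump L y)
        + (bump L (x - 1) - bump L x) * (bump L (y + 1) - bump L y) := by ring
  rw [e]
  have hL1 : 1 ≤ L := by omega
  have d1 := bump_diff L x hL1
  have d2 : |bump L (x - 1) - bump L x| ≤ 2 * L ^ 3 := by
    have := bump_diff L (x - 1) hL1
    rw [sub_add_cancel, abs_sub_comm] at this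
    exact this
  have d3 := bump_diff L y hL1
  have d4 : |bump L (y - 1) - bump L y| ≤ 2 * L ^ 3 := by
    have := bump_diff L (y - 1) hL1
    rw [sub_add_cancel, abs_sub_comm] at this
    exact this
  have b1 : |bump L y| ≤ L ^ 4 := by rw [abs_of_nonneg (bump_nonneg _ _)]; exact bump_le L y hL1
  have b2 : |bump L x| ≤ L ^ 4 := by rw [abs_of_nonneg (bump_nonneg _ _)]; exact bump_le L x hL1
  have m1 := mul_le_mul b1 (bump_second L x hL) (abs_nonneg _) (by positivity)
  have m2 := mul_le_mul b2 (bump_second L y hL) (abs_nonneg _) (by positivity)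
  have m3 := mul_le_mul d1 d4 (abs_nonneg _) (by positivity)
  have m4 := mul_le_mul d2 d3 (abs_nonneg _) (by positivity)
  rw [← abs_mul] at m1 m2 m3 m4
  refine (abs_add_le _ _).trans ?_
  refine (add_le_add_left (abs_add_le _ _) _).trans ?_
  refine (add_le_add_left (add_le_add_left (abs_add_le _ _) _) _).trans ?_
  calc _ ≤ L ^ 4 * (5 * L ^ 2) + L ^ 4 * (5 * L ^ 2) + 2 * L ^ 3 * (2 * L ^ 3)
        + 2 * L ^ 3 * (2 * L ^ 3) := by linarith
    _ = _ := by ring

end Pool.Agent.J6H21.Steklov
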