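import Mathlib
import Pool.Agent.J6H21.Steklov.Window
import Pool.Agent.J6H21.Steklov.Auto

/-! The window inequality. -/

namespace Pool.Agent.J6H21.Steklov

/-- bump on the window `[K, 8K]`. -/
def et (K p : ℤ) : ℤ := bump (7 * K) (p - K)

theorem et_out (K p : ℤ) (h : p ≤ K ∨ 8 * K ≤ p) : et K p = 0 :=
  bump_of_out _ _ (by omega)

theorem et_mid (K p : ℤ) (hK : 1 ≤ K) (h1 : 2 * K ≤ p) (h2 : p ≤ 4 * K) :
    16 * K ^ 4 ≤ et K p := by
  unfold et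
  rw [bump_of_in _ _ (by omega)]
  have h3 : 4 * K ^ 2 ≤ (p - K) * (7 * K - (p - K)) := by
    have : K * (4 * K) ≤ (p - K) * (7 * K - (p - K)) :=
      mul_le_mul (by omega) (by omega) (by omega) (by omega)
    linarith
  calc 16 * K ^ 4 = (4 * K ^ 2) ^ 2 := by ring
    _ ≤ _ := pow_le_pow_left₀ (by positivity) h3 2

theorem cs_complex (I : Finset ℤ) (u v : ℤ → ℂ) :
    ‖∑ p ∈ I, u p * v p‖ ^ 2 ≤ (∑ p ∈ I, ‖u p‖ ^ 2) * (∑ p ∈ I, ‖v p‖ ^ 2) := by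
  have h1 : ‖∑ p ∈ I, u p * v p‖ ≤ ∑ p ∈ I, ‖u p‖ * ‖v p‖ := by
    refine (norm_sum_le _ _).trans (le_of_eq ?_)
    exact Finset.sum_congr rfl fun p _ => norm_mul _ _
  exact (pow_le_pow_left₀ (norm_nonneg _) h1 2).trans (Finset.sum_mul_sq_le_sq_mul_sq _ _ _)

theorem window_s (c : ℤ → ℂ) (d K : ℤ) (hK : 1 ≤ K) (hc : ∀ n, d < |n| → c n = 0) (s : ℤ) :
    4 * ‖∑ x ∈ Finset.Icc K (8 * K) ×ˢ Finset.Icc K (8 * K) with x.1 + x.2 = s,
        ((et K x.1 : ℂ) * c x.1) * ((et K x.2 : ℂ) * c x.2)‖ ^ 2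
      ≤ (∑ x ∈ Finset.Icc K (8 * K) ×ˢ Finset.Icc K (8 * K) with x.1 + x.2 = s,
          ‖Gf c d (x.1 + x.2) x.1‖ ^ 2) * (8 * K * (18 * (7 * K) ^ 6) ^ 2 : ℤ) := by
  set I := Finset.Icc K (8 * K) with hI
  rw [pair_sum I s (fun p q => ((et K p : ℂ) * c p) * ((et K q : ℂ) * c q)),
    pair_sum_real I s (fun p q => ‖Gf c d (p + q) p‖ ^ 2)]
  set φ : ℤ → ℂ := fun p => ((et K p * et K (s - p) : ℤ) : ℂ) with hφ
  have hφ0 : ∀ p, p ≤ K ∨ 8 * K ≤ p → φ p = 0 := by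
    intro p hp
    rw [hφ]
    simp only
    rw [et_out K p hp]
    simp
  have e1 : (2 : ℂ) * (∑ p ∈ I, if s - p ∈ I then
      ((et K p : ℂ) * c p) * ((et K (s - p) : ℂ) * c (s - p)) else 0)
      = ∑ p ∈ I, Gf c d s p * (φ (p + 1) - 2 * φ p + φ (p - 1)) := by
    rw [second_diff (Gf c d s) φ K (8 * K) hφ0, Finset.mul_sum]
    refine Finset.sum_congr rfl fun p _ => ?_
    rw [Gf_second c d hc s p]
    split_ifs with h
    · rw [hφ]; push_cast; ring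
    · have : et K (s - p) = 0 := by
        rw [hI, Finset.mem_Icc] at h
        exact et_out K (s - p) (by omega)
      rw [hφ]
      simp only
      rw [this]; simp
  have hψ0 : ∀ p ∈ I, s - p ∉ I → φ (p + 1) - 2 * φ p + φ (p - 1) = 0 := by
    intro p _ h
    rw [hI, Finset.mem_Icc] at h
    rw [hφ]
    simp only
    rw [et_out K (s - p) (by omega), et_out K (s - (p + 1)) (by omega),
      et_out K (s - (p - 1)) (by omega)]
    simp
  have e2 : ∑ p ∈ I, Gf c d s p * (φ (p + 1) - 2 * φ p + φ (p - 1))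
      = ∑ p ∈ I, (if s - p ∈ I then Gf c d s p else 0) * (φ (p + 1) - 2 * φ p + φ (p - 1)) := by
    refine Finset.sum_congr rfl fun p hp => ?_
    split_ifs with h
    · rfl
    · rw [hψ0 p hp h]; simp
  have hψ : ∀ p, ‖φ (p + 1) - 2 * φ p + φ (p - 1)‖ ^ 2 ≤ (((18 * (7 * K) ^ 6) ^ 2 : ℤ) : ℝ) := by
    intro p
    have h1 := prod_second (7 * K) (by omega) (p - K) (s - p - K)
    have h2 : φ (p + 1) - 2 * φ p + φ (p - 1)
        = ((bump (7 * K) (p - K + 1) * bump (7 * K) (s - p - K - 1)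
          - 2 * (bump (7 * K) (p - K) * bump (7 * K) (s - p - K))
          + bump (7 * K) (p - K - 1) * bump (7 * K) (s - p - K + 1) : ℤ) : ℂ) := by
      rw [hφ]
      simp only [et]
      rw [show p + 1 - K = p - K + 1 by ring, show s - (p + 1) - K = s - p - K - 1 by ring,
        show p - 1 - K = p - K - 1 by ring, show s - (p - 1) - K = s - p - K + 1 by ring]
      push_cast
      ring
    rw [h2, Complex.norm_intCast]
    have h3 : (|((bump (7 * K) (p - K + 1) * bump (7 * K) (s - p - K - 1)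
          - 2 * (bump (7 * K) (p - K) * bump (7 * K) (s - p - K))
          + bump (7 * K) (p - K - 1) * bump (7 * K) (s - p - K + 1) : ℤ) : ℝ)|)
          ≤ ((18 * (7 * K) ^ 6 : ℤ) : ℝ) := by exact_mod_cast h1
    calc _ ≤ ((18 * (7 * K) ^ 6 : ℤ) : ℝ) ^ 2 := pow_le_pow_left₀ (abs_nonneg _) h3 2
      _ = _ := by push_cast; ring
  have h4 : (4 : ℝ) * ‖∑ p ∈ I, if s - p ∈ I then
      ((et K p : ℂ) * c p) * ((et K (s - p) : ℂ) * c (s - p)) else 0‖ ^ 2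
      = ‖∑ p ∈ I, (if s - p ∈ I then Gf c d s p else 0) * (φ (p + 1) - 2 * φ p + φ (p - 1))‖ ^ 2 := by
    rw [← e2, ← e1, norm_mul, mul_pow]
    norm_num
  rw [h4]
  refine (cs_complex I _ _).trans ?_
  refine mul_le_mul (le_of_eq ?_) ?_ (Finset.sum_nonneg fun _ _ => by positivity)
    (Finset.sum_nonneg fun _ _ => by split_ifs <;> positivity)
  · refine Finset.sum_congr rfl fun p _ => ?_
    split_ifs with h
    · rw [add_sub_cancel]
    · simp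
  · refine (Finset.sum_le_sum fun p _ => hψ p).trans ?_
    rw [Finset.sum_const, nsmul_eq_mul, hI, Int.card_Icc]
    have h5 : (((8 * K + 1 - K).toNat : ℕ) : ℝ) ≤ ((8 * K : ℤ) : ℝ) := by
      have : (((8 * K + 1 - K).toNat : ℕ) : ℤ) ≤ 8 * K := by omega
      exact_mod_cast this
    have h6 : (0 : ℝ) ≤ (((18 * (7 * K) ^ 6) ^ 2 : ℤ) : ℝ) := by positivity
    calc _ ≤ ((8 * K : ℤ) : ℝ) * (((18 * (7 * K) ^ 6) ^ 2 : ℤ) : ℝ) :=
          mul_le_mul_of_nonneg_right h5 h6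
      _ = _ := by push_cast; ring

/-- the constant -/
noncomputable def kap : ℝ := 262144 / (2592 * 7 ^ 12)

theorem kap_pos : 0 < kap := by unfold kap; positivity

theorem window_ineq (c : ℤ → ℂ) (d K : ℤ) (hK : 1 ≤ K) (hc : ∀ n, d < |n| → c n = 0) :
    kap * (K : ℝ) ^ 3 * (∑ p ∈ Finset.Ico (2 * K) (4 * K), ‖c p‖ ^ 2) ^ 2
      ≤ ∑ x ∈ Finset.Icc K (8 * K) ×ˢ Finset.Icc K (8 * K), ‖Gf c d (x.1 + x.2) x.1‖ ^ 2 := by
  set I := Finset.Icc K (8 * K) with hI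
  set M := ∑ p ∈ Finset.Ico (2 * K) (4 * K), ‖c p‖ ^ 2 with hM
  have hM0 : 0 ≤ M := Finset.sum_nonneg fun _ _ => by positivity
  have hKr : (1 : ℝ) ≤ K := by exact_mod_cast hK
  have hauto := autocorr K (8 * K) (fun p => (et K p : ℂ) * c p)
  rw [← hI] at hauto
  have hS : ∑ s ∈ Finset.Icc (K + K) (8 * K + 8 * K), (4 * ‖∑ x ∈ I ×ˢ I with x.1 + x.2 = s,
        ((et K x.1 : ℂ) * c x.1) * ((et K x.2 : ℂ) * c x.2)‖ ^ 2)
      ≤ ∑ s ∈ Finset.Icc (K + K) (8 * K + 8 * K), ((∑ x ∈ I ×ˢ I with x.1 + x.2 = s,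
          ‖Gf c d (x.1 + x.2) x.1‖ ^ 2) * (8 * K * (18 * (7 * K) ^ 6) ^ 2 : ℤ)) :=
    Finset.sum_le_sum fun s _ => window_s c d K hK hc s
  rw [← Finset.mul_sum, ← Finset.sum_mul, Finset.sum_fiberwise_of_maps_to] at hS
  swap
  · intro x hx
    simp only [hI, Finset.mem_product, Finset.mem_Icc] at hx
    rw [Finset.mem_Icc]
    omega
  have h1 : 256 * (K : ℝ) ^ 8 * M ≤ ∑ p ∈ I, ‖(et K p : ℂ) * c p‖ ^ 2 := by
    rw [hM, Finset.mul_sum]
    have hsub : Finset.Ico (2 * K) (4 * K) ⊆ I := by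
      intro p hp
      rw [Finset.mem_Ico] at hp
      rw [hI, Finset.mem_Icc]
      omega
    refine le_trans (Finset.sum_le_sum fun p hp => ?_)
      (Finset.sum_le_sum_of_subset_of_nonneg hsub fun p _ _ => by positivity)
    rw [Finset.mem_Ico] at hp
    have h2 := et_mid K p hK (by omega) (by omega)
    have h3 : (16 : ℝ) * K ^ 4 ≤ et K p := by exact_mod_cast h2
    rw [norm_mul, mul_pow, Complex.norm_intCast]
    refine mul_le_mul_of_nonneg_right ?_ (by positivity)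
    calc 256 * (K : ℝ) ^ 8 = (16 * K ^ 4) ^ 2 := by ring
      _ ≤ |(et K p : ℝ)| ^ 2 := pow_le_pow_left₀ (by positivity) (h3.trans (le_abs_self _)) 2
  have h2 : (256 * (K : ℝ) ^ 8 * M) ^ 2 ≤ (∑ p ∈ I, ‖(et K p : ℂ) * c p‖ ^ 2) ^ 2 :=
    pow_le_pow_left₀ (by positivity) h1 2
  have h3 : 4 * (256 * (K : ℝ) ^ 8 * M) ^ 2
      ≤ (∑ x ∈ I ×ˢ I, ‖Gf c d (x.1 + x.2) x.1‖ ^ 2) * (8 * K * (18 * (7 * K) ^ 6) ^ 2 : ℤ) :=
    le_trans (mul_le_mul_of_nonneg_left (h2.trans hauto) (by norm_num)) hS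
  set X := ∑ x ∈ I ×ˢ I, ‖Gf c d (x.1 + x.2) x.1‖ ^ 2 with hX
  push_cast at h3
  have h4 : (4 * (256 * (K : ℝ) ^ 8 * M) ^ 2) = (262144 * K ^ 3 * M ^ 2) * (K : ℝ) ^ 13 := by ring
  have h5 : X * (8 * (K : ℝ) * (18 * (7 * K) ^ 6) ^ 2) = (X * (2592 * 7 ^ 12)) * (K : ℝ) ^ 13 := by
    ring
  rw [h4, h5] at h3
  have h6 : (0 : ℝ) < (K : ℝ) ^ 13 := by positivity
  have h7 := le_of_mul_le_mul_right h3 h6
  unfold kap
  rw [div_mul_eq_mul_div, div_mul_eq_mul_div, div_le_iff₀ (by positivity)]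
  exact h7

end Pool.Agent.J6H21.Steklov
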