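import Mathlib
import Pool.Agent.J6H21.Steklov.WindowIneq
import Pool.Agent.J6H21.Steklov.Identity
import Pool.Agent.J6H21.Steklov.MatrixIneq

/-! The inequality for finitely supported sequences. -/

namespace Pool.Agent.J6H21.Steklov

open Matrix

theorem sum_inj_le {α β : Type*} [Fintype β] [DecidableEq β] (I : Finset α) (g : α → β)
    (hg : Set.InjOn g I) (F : β → ℝ) (hF : ∀ b, 0 ≤ F b) :
    ∑ a ∈ I, F (g a) ≤ ∑ b, F b := by
  rw [← Finset.sum_image (f := F) hg]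
  exact Finset.sum_le_univ_sum_of_nonneg hF

theorem zero_mem_Icc {R : ℤ} (hR : 0 ≤ R) : (0 : ℤ) ∈ Finset.Icc (-R) R := by
  rw [Finset.mem_Icc]; omega

/-- embedding of integers in the index set -/
noncomputable def emb (R : ℤ) (hR : 0 ≤ R) (x : ℤ) : {x // x ∈ Finset.Icc (-R) R} :=
  if h : x ∈ Finset.Icc (-R) R then ⟨x, h⟩ else ⟨0, zero_mem_Icc hR⟩

theorem emb_val {R : ℤ} (hR : 0 ≤ R) {x : ℤ} (h : x ∈ Finset.Icc (-R) R) :
    ((emb R hR x : {x // x ∈ Finset.Icc (-R) R}) : ℤ) = x := by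
  unfold emb; rw [dif_pos h]

theorem H_entry (c : ℤ → ℂ) (d R : ℤ) (hd : 0 ≤ d) (hdR : d ≤ R) (hc : ∀ n, d < |n| → c n = 0)
    (x y : {x // x ∈ Finset.Icc (-R) R}) (p q : ℤ) (hp : 0 ≤ p) (hq : 0 ≤ q)
    (hx : (x : ℤ) = -q) (hy : (y : ℤ) = p) :
    (TM c R * TM c R) x y = ((√q * √p : ℝ) : ℂ) * Gf c d (p + q) p := by
  rw [Matrix.mul_apply]
  have h1 : ∀ z : {x // x ∈ Finset.Icc (-R) R}, TM c R x z * TM c R z y
      = ((√q * √p : ℝ) : ℂ) * (((|(z : ℤ)| : ℤ) : ℂ) * (c ((z : ℤ) + q) * c (p - z))) := by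
    intro z
    unfold TM
    rw [hx, hy]
    have e1 : |((-q : ℤ) : ℝ)| = q := by
      push_cast; rw [abs_neg]; exact abs_of_nonneg (by exact_mod_cast hq)
    have e2 : |((p : ℤ) : ℝ)| = p := abs_of_nonneg (by exact_mod_cast hp)
    have e3 : (√|((z : ℤ) : ℝ)| : ℝ) * √|((z : ℤ) : ℝ)| = ((|(z : ℤ)| : ℤ) : ℝ) := by
      rw [Real.mul_self_sqrt (abs_nonneg _)]; push_cast; rfl
    rw [e1, e2, sub_neg_eq_add]
    have e4 : (((|(z : ℤ)| : ℤ) : ℝ) : ℂ) = ((|(z : ℤ)| : ℤ) : ℂ) := Complex.ofReal_intCast _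
    rw [← e4, ← e3]
    push_cast
    ring
  rw [Finset.sum_congr rfl fun z _ => h1 z, ← Finset.mul_sum]
  congr 1
  rw [Finset.sum_coe_sort (Finset.Icc (-R) R)
    (fun z : ℤ => (((|z| : ℤ) : ℂ) * (c (z + q) * c (p - z))))]
  unfold Gf
  rw [sum_Icc_eq_tsum, sum_Icc_eq_tsum]
  · rw [← (Equiv.subLeft p).tsum_eq (fun z : ℤ => (((|z| : ℤ) : ℂ) * (c (z + q) * c (p - z))))]
    refine tsum_congr fun j => ?_
    simp only [Equiv.subLeft_apply]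
    rw [show p - j + q = p + q - j by ring, show p - (p - j) = j by ring]
    ring
  · intro j hj
    rw [Finset.mem_Icc] at hj
    rw [hc j (by by_contra h; exact hj (abs_le.1 (not_lt.1 h)))]
    ring
  · intro z hz
    rw [Finset.mem_Icc] at hz
    rcases lt_or_ge R z with h | h
    · rw [hc (z + q) (lt_abs.2 (Or.inl (by omega)))]; ring
    · rw [hc (p - z) (lt_abs.2 (Or.inl (by omega)))]; ring

theorem pow_sum_ge {α : Type*} (I : Finset α) (x : α → ℝ) (hx : ∀ i, 0 ≤ x i) (k : ℕ) :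
    ∑ i ∈ I, x i ^ (k + 1) ≤ (∑ i ∈ I, x i) ^ (k + 1) := by
  have hS : 0 ≤ ∑ i ∈ I, x i := Finset.sum_nonneg fun i _ => hx i
  rw [pow_succ (∑ i ∈ I, x i), Finset.mul_sum]
  refine Finset.sum_le_sum fun i hi => ?_
  rw [pow_succ]
  refine mul_le_mul_of_nonneg_right ?_ (hx i)
  exact pow_le_pow_left₀ (hx i) (Finset.single_le_sum (fun i _ => hx i) hi) k

/-- the constant of the window step -/
noncomputable def Ck (k : ℕ) : ℝ :=
  4 ^ (2 * (k + 2) + 1) * ((8 : ℝ) ^ (((k : ℝ) + 2) / 2 - 1) / kap ^ (((k : ℝ) + 2) / 2))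

theorem Ck_pos (k : ℕ) : 0 < Ck k := by
  unfold Ck
  have := kap_pos
  positivity

theorem power_mean (k : ℕ) (K : ℤ) (hK : 1 ≤ K) (r : ℤ → ℝ) (hr : ∀ x, 0 ≤ r x) (M : ℝ)
    (hM : 0 ≤ M) (h : kap * (K : ℝ) ^ 5 * M ^ 2 ≤ ∑ q ∈ Finset.Icc K (8 * K), r q ^ 2) :
    4 ^ (2 * (k + 2) + 1) * ((K : ℝ) ^ (2 * (k + 2) + 1) * M ^ (k + 2))
      ≤ Ck k * ∑ q ∈ Finset.Icc K (8 * K), r q ^ (k + 2) := by
  set e : ℝ := ((k : ℝ) + 2) / 2 with he
  have he1 : 1 ≤ e := by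
    rw [he]; have : (0 : ℝ) ≤ k := Nat.cast_nonneg k
    linarith
  have hKr : (1 : ℝ) ≤ K := by exact_mod_cast hK
  have hK0 : (0 : ℝ) < K := by linarith
  have hkap := kap_pos
  set Y := ∑ q ∈ Finset.Icc K (8 * K), r q ^ (k + 2) with hY
  have hY0 : 0 ≤ Y := Finset.sum_nonneg fun q _ => pow_nonneg (hr q) _
  have hpow : ∀ x : ℝ, 0 ≤ x → (x ^ 2) ^ e = x ^ (k + 2) := by
    intro x hx
    rw [← Real.rpow_natCast x 2, ← Real.rpow_mul hx, ← Real.rpow_natCast x (k + 2)]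
    congr 1
    rw [he]; push_cast; ring
  have h1 : (kap * (K : ℝ) ^ 5 * M ^ 2) ^ e ≤ (∑ q ∈ Finset.Icc K (8 * K), r q ^ 2) ^ e :=
    Real.rpow_le_rpow (by positivity) h (by linarith)
  have h2 := Real.rpow_sum_le_const_mul_sum_rpow_of_nonneg (Finset.Icc K (8 * K))
    (f := fun q => r q ^ 2) he1 (fun q _ => by positivity)
  have h3 : ∑ q ∈ Finset.Icc K (8 * K), (r q ^ 2) ^ e = Y := by
    rw [hY]
    exact Finset.sum_congr rfl fun q _ => hpow _ (hr q)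
  rw [h3] at h2
  have h4 : (((Finset.Icc K (8 * K)).card : ℕ) : ℝ) ≤ 8 * K := by
    rw [Int.card_Icc]
    have : (((8 * K + 1 - K).toNat : ℕ) : ℤ) ≤ 8 * K := by omega
    exact_mod_cast this
  have h5 : (((Finset.Icc K (8 * K)).card : ℕ) : ℝ) ^ (e - 1) ≤ (8 * K : ℝ) ^ (e - 1) :=
    Real.rpow_le_rpow (by positivity) h4 (by linarith)
  have h6 : (kap * (K : ℝ) ^ 5 * M ^ 2) ^ e ≤ (8 * K : ℝ) ^ (e - 1) * Y :=
    h1.trans (h2.trans (mul_le_mul_of_nonneg_right h5 hY0))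
  have h7 : (kap * (K : ℝ) ^ 5 * M ^ 2) ^ e
      = kap ^ e * ((K : ℝ) ^ (2 * (k + 2) + 1) * M ^ (k + 2)) * (K : ℝ) ^ (e - 1) := by
    rw [Real.mul_rpow (by positivity) (by positivity), Real.mul_rpow (by positivity) (by positivity),
      hpow M hM]
    have h8 : ((K : ℝ) ^ 5) ^ e = (K : ℝ) ^ (2 * (k + 2) + 1) * (K : ℝ) ^ (e - 1) := by
      rw [← Real.rpow_natCast (K : ℝ) 5, ← Real.rpow_mul hK0.le,
        ← Real.rpow_natCast (K : ℝ) (2 * (k + 2) + 1), ← Real.rpow_add hK0]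
      congr 1
      rw [he]; push_cast; ring
    rw [h8]; ring
  rw [h7, Real.mul_rpow (by norm_num) hK0.le] at h6
  have h9 : (0 : ℝ) < (K : ℝ) ^ (e - 1) := Real.rpow_pos_of_pos hK0 _
  have h10 : kap ^ e * ((K : ℝ) ^ (2 * (k + 2) + 1) * M ^ (k + 2)) ≤ (8 : ℝ) ^ (e - 1) * Y := by
    refine le_of_mul_le_mul_right ?_ h9
    calc _ ≤ _ := h6
      _ = _ := by ring
  have h11 : 0 < kap ^ e := Real.rpow_pos_of_pos hkap _
  have h12 : (K : ℝ) ^ (2 * (k + 2) + 1) * M ^ (k + 2) ≤ (8 : ℝ) ^ (e - 1) / kap ^ e * Y := by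
    rw [div_mul_eq_mul_div, le_div_iff₀ h11, mul_comm]
    exact h10
  unfold Ck
  rw [mul_assoc]
  exact mul_le_mul_of_nonneg_left h12 (by positivity)

end Pool.Agent.J6H21.Steklov
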