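import Mathlib
import Pool.Agent.J6H21.Steklov.Finite

/-! The inequality for finitely supported sequences: assembly. -/

namespace Pool.Agent.J6H21.Steklov

open Matrix

theorem dyadic_lower (d : ℕ) (g : ℕ → ℝ) (hg : ∀ x, 0 ≤ g x) :
    ∑ p ∈ Finset.Icc 2 d, g p
      ≤ ∑ j ∈ Finset.range (Nat.log 2 d), ∑ p ∈ Finset.Ico (2 * 2 ^ j) (4 * 2 ^ j), g p := by
  have hmaps : ∀ p ∈ Finset.Icc 2 d, Nat.log 2 p - 1 ∈ Finset.range (Nat.log 2 d) := by
    intro p hp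
    rw [Finset.mem_Icc] at hp
    rw [Finset.mem_range]
    have h1 : Nat.log 2 p ≤ Nat.log 2 d := Nat.log_mono_right hp.2
    have h2 : 1 ≤ Nat.log 2 p := Nat.log_pos (by norm_num) hp.1
    omega
  rw [← Finset.sum_fiberwise_of_maps_to hmaps]
  refine Finset.sum_le_sum fun j _ => ?_
  refine Finset.sum_le_sum_of_subset_of_nonneg ?_ fun p _ _ => hg p
  intro p hp
  rw [Finset.mem_filter, Finset.mem_Icc] at hp
  rw [Finset.mem_Ico]
  have h2 : 1 ≤ Nat.log 2 p := Nat.log_pos (by norm_num) hp.1.1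
  have h3 : Nat.log 2 p = j + 1 := by omega
  have h4 := Nat.pow_log_le_self 2 (x := p) (by omega)
  have h5 := Nat.lt_pow_succ_log_self (b := 2) (by norm_num) p
  rw [h3] at h4 h5
  constructor
  · calc 2 * 2 ^ j = 2 ^ (j + 1) := by ring
      _ ≤ p := h4
  · calc p < 2 ^ (j + 1).succ := h5
      _ = 4 * 2 ^ j := by rw [Nat.succ_eq_add_one]; ring

theorem dyadic_upper (J R : ℕ) (hR : ∀ j < J, 8 * 2 ^ j ≤ R) (g : ℕ → ℝ) (hg : ∀ x, 0 ≤ g x) :
    ∑ j ∈ Finset.range J, ∑ p ∈ Finset.Icc (2 ^ j) (8 * 2 ^ j), g p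
      ≤ 4 * ∑ p ∈ Finset.Icc 1 R, g p := by
  have h1 : ∀ j ∈ Finset.range J, ∑ p ∈ Finset.Icc (2 ^ j) (8 * 2 ^ j), g p
      = ∑ p ∈ Finset.Icc 1 R, if p ∈ Finset.Icc (2 ^ j) (8 * 2 ^ j) then g p else 0 := by
    intro j hj
    rw [Finset.mem_range] at hj
    rw [← Finset.sum_filter]
    congr 1
    ext p
    simp only [Finset.mem_filter, Finset.mem_Icc]
    constructor
    · intro h
      have := hR j hj
      have h2 : 1 ≤ 2 ^ j := Nat.one_le_two_pow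
      exact ⟨⟨by omega, by omega⟩, h⟩
    · exact fun h => h.2
  rw [Finset.sum_congr rfl h1, Finset.sum_comm, Finset.mul_sum]
  refine Finset.sum_le_sum fun p hp => ?_
  rw [Finset.mem_Icc] at hp
  rw [← Finset.sum_filter, Finset.sum_const, nsmul_eq_mul]
  refine mul_le_mul_of_nonneg_right ?_ (hg p)
  have h2 : (Finset.filter (fun j => p ∈ Finset.Icc (2 ^ j) (8 * 2 ^ j)) (Finset.range J))
      ⊆ Finset.Icc (Nat.log 2 p - 3) (Nat.log 2 p) := by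
    intro j hj
    rw [Finset.mem_filter, Finset.mem_Icc] at hj
    rw [Finset.mem_Icc]
    have h3 : j ≤ Nat.log 2 p := Nat.le_log_of_pow_le (by norm_num) hj.2.1
    have h4 := Nat.pow_log_le_self 2 (x := p) (by omega)
    have h5 : 2 ^ Nat.log 2 p ≤ 2 ^ (j + 3) := by
      calc 2 ^ Nat.log 2 p ≤ p := h4
        _ ≤ 8 * 2 ^ j := hj.2.2
        _ = 2 ^ (j + 3) := by ring
    have h6 : Nat.log 2 p ≤ j + 3 := (Nat.pow_le_pow_iff_right (by norm_num)).1 h5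
    omega
  have h3 := Finset.card_le_card h2
  rw [Nat.card_Icc] at h3
  have h4 : (Finset.filter (fun j => p ∈ Finset.Icc (2 ^ j) (8 * 2 ^ j)) (Finset.range J)).card ≤ 4 := by
    omega
  exact_mod_cast h4

theorem sum_Icc_cast (a b : ℕ) (F : ℤ → ℝ) :
    ∑ p ∈ Finset.Icc (a : ℤ) (b : ℤ), F p = ∑ p ∈ Finset.Icc a b, F (p : ℤ) := by
  refine (Finset.sum_nbij' (fun p : ℕ => (p : ℤ)) (fun x : ℤ => x.toNat) ?_ ?_ ?_ ?_ ?_).symm
  · intro p hp
    simp only [Finset.mem_Icc] at hp ⊢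
    omega
  · intro p hp
    simp only [Finset.mem_Icc] at hp ⊢
    omega
  · intro p hp
    simp
  · intro p hp
    simp only [Finset.mem_Icc] at hp
    exact Int.toNat_of_nonneg (by omega)
  · intro p hp
    rfl

theorem sum_Ico_cast (a b : ℕ) (F : ℤ → ℝ) :
    ∑ p ∈ Finset.Ico (a : ℤ) (b : ℤ), F p = ∑ p ∈ Finset.Ico a b, F (p : ℤ) := by
  refine (Finset.sum_nbij' (fun p : ℕ => (p : ℤ)) (fun x : ℤ => x.toNat) ?_ ?_ ?_ ?_ ?_).symm
  · intro p hp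
    simp only [Finset.mem_Ico] at hp ⊢
    omega
  · intro p hp
    simp only [Finset.mem_Ico] at hp ⊢
    omega
  · intro p hp
    simp
  · intro p hp
    simp only [Finset.mem_Ico] at hp
    exact Int.toNat_of_nonneg (by omega)
  · intro p hp
    rfl

section main

variable (c : ℤ → ℂ) (d : ℕ) (k : ℕ)

/-- half size of the index set -/
def RR (d k : ℕ) : ℕ := 2 * ((2 * k + 4) * d)

/-- row norms -/
noncomputable def rho (R : ℤ) (x : {x // x ∈ Finset.Icc (-R) R}) : ℝ :=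
  √(∑ i : {x // x ∈ Finset.Icc (-R) R},
    ‖(((1 - sg (x : ℤ) * sg (i : ℤ)) / 2 : ℝ) : ℂ) * (TM c R * TM c R) x i‖ ^ 2)

theorem rho_window (hc : ∀ n : ℤ, (d : ℤ) < |n| → c n = 0)
    (hs : ∀ n, c (-n) = (starRingEnd ℂ) (c n)) (K R : ℕ) (hK : 1 ≤ K) (hKR : 8 * K ≤ R)
    (hdR : d ≤ R) (p : ℤ) (hp : p ∈ Finset.Icc (K : ℤ) (8 * K : ℤ)) :
    (K : ℝ) ^ 2 * ∑ q ∈ Finset.Icc (K : ℤ) (8 * K : ℤ), ‖Gf c d (p + q) p‖ ^ 2
      ≤ rho c R (emb R (by positivity) p) ^ 2 := by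
  have hR0 : (0 : ℤ) ≤ (R : ℤ) := by positivity
  unfold rho
  rw [Real.sq_sqrt (Finset.sum_nonneg fun _ _ => by positivity)]
  have hinj : Set.InjOn (fun q : ℤ => emb (R : ℤ) hR0 (-q)) (Finset.Icc (K : ℤ) (8 * K : ℤ)) := by
    intro q hq q' hq' h
    rw [Finset.mem_coe, Finset.mem_Icc] at hq hq'
    have h1 := emb_val (R := (R : ℤ)) hR0 (x := -q) (by rw [Finset.mem_Icc]; omega)
    have h2 := emb_val (R := (R : ℤ)) hR0 (x := -q') (by rw [Finset.mem_Icc]; omega)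
    have h3 : ((emb (R : ℤ) hR0 (-q) : {x // x ∈ Finset.Icc (-(R : ℤ)) R}) : ℤ)
        = ((emb (R : ℤ) hR0 (-q') : {x // x ∈ Finset.Icc (-(R : ℤ)) R}) : ℤ) := congrArg _ h
    rw [h1, h2] at h3
    omega
  refine le_trans ?_ (sum_inj_le (Finset.Icc (K : ℤ) (8 * K : ℤ))
    (fun q : ℤ => emb (R : ℤ) hR0 (-q)) hinj
    (fun i => ‖(((1 - sg ((emb (R : ℤ) hR0 p : {x // x ∈ Finset.Icc (-(R : ℤ)) R}) : ℤ)
      * sg (i : ℤ)) / 2 : ℝ) : ℂ) * (TM c R * TM c R) (emb (R : ℤ) hR0 p) i‖ ^ 2)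
    fun _ => by positivity)
  rw [Finset.mul_sum]
  refine Finset.sum_le_sum fun q hq => ?_
  rw [Finset.mem_Icc] at hq hp
  have v1 := emb_val (R := (R : ℤ)) hR0 (x := -q) (by rw [Finset.mem_Icc]; omega)
  have v2 := emb_val (R := (R : ℤ)) hR0 (x := p) (by rw [Finset.mem_Icc]; omega)
  have hH : (TM c R * TM c R) (emb (R : ℤ) hR0 p) (emb (R : ℤ) hR0 (-q))
      = (starRingEnd ℂ) ((TM c R * TM c R) (emb (R : ℤ) hR0 (-q)) (emb (R : ℤ) hR0 p)) := by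
    have hTT : (TM c R * TM c R).IsHermitian := by
      rw [Matrix.IsHermitian, Matrix.conjTranspose_mul, TM_herm c hs]
    exact (hTT.apply _ _).symm
  have e0 := H_entry c d R (by positivity) (by exact_mod_cast hdR) hc (emb (R : ℤ) hR0 (-q))
    (emb (R : ℤ) hR0 p) p q (by omega) (by omega) v1 v2
  rw [hH, v1, v2, norm_mul, RCLike.norm_conj, e0, norm_mul]
  have s1 : sg p = 1 := by unfold sg; rw [if_pos (by omega)]
  have s2 : sg (-q) = -1 := by unfold sg; rw [if_neg (by omega)]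
  rw [s1, s2]
  have e1 : ‖(((1 - 1 * (-1 : ℝ)) / 2 : ℝ) : ℂ)‖ = 1 := by norm_num
  rw [e1, one_mul, mul_pow]
  refine mul_le_mul_of_nonneg_right ?_ (by positivity)
  rw [Complex.norm_real, Real.norm_eq_abs, sq_abs, mul_pow, Real.sq_sqrt (by exact_mod_cast (by omega : (0 : ℤ) ≤ q)),
    Real.sq_sqrt (by exact_mod_cast (by omega : (0 : ℤ) ≤ p)), sq]
  have a1 : (K : ℝ) ≤ q := by exact_mod_cast hq.1
  have a2 : (K : ℝ) ≤ p := by exact_mod_cast hp.1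
  exact mul_le_mul a1 a2 (by positivity) (le_trans (by positivity) a1)

theorem rho_nonneg (R : ℤ) (x : {x // x ∈ Finset.Icc (-R) R}) : 0 ≤ rho c R x := Real.sqrt_nonneg _

theorem window_step (hc : ∀ n : ℤ, (d : ℤ) < |n| → c n = 0)
    (hs : ∀ n, c (-n) = (starRingEnd ℂ) (c n)) (K R : ℕ) (hK : 1 ≤ K) (hKR : 8 * K ≤ R)
    (hdR : d ≤ R) :
    ∑ p ∈ Finset.Ico (2 * K) (4 * K), (p : ℝ) ^ (2 * (k + 2) + 1) * ‖c p‖ ^ (2 * (k + 2))
      ≤ Ck k * ∑ q ∈ Finset.Icc K (8 * K), rho c R (emb R (by positivity) q) ^ (k + 2) := by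
  have hR0 : (0 : ℤ) ≤ (R : ℤ) := by positivity
  set M : ℝ := ∑ p ∈ Finset.Ico (2 * K) (4 * K), ‖c p‖ ^ 2 with hM
  have hM0 : 0 ≤ M := Finset.sum_nonneg fun _ _ => by positivity
  have hw := window_ineq c d K (by exact_mod_cast hK) hc
  have hM' : ∑ p ∈ Finset.Ico (2 * (K : ℤ)) (4 * (K : ℤ)), ‖c p‖ ^ 2 = M := by
    have := sum_Ico_cast (2 * K) (4 * K) (fun p => ‖c p‖ ^ 2)
    push_cast at this
    exact this
  rw [hM', Finset.sum_product] at hw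
  simp only at hw
  have h1 : ∑ p ∈ Finset.Icc (K : ℤ) (8 * K : ℤ),
      ((K : ℝ) ^ 2 * ∑ q ∈ Finset.Icc (K : ℤ) (8 * K : ℤ), ‖Gf c d (p + q) p‖ ^ 2)
      ≤ ∑ p ∈ Finset.Icc (K : ℤ) (8 * K : ℤ), rho c R (emb R hR0 p) ^ 2 :=
    Finset.sum_le_sum fun p hp => rho_window c d hc hs K R hK hKR hdR p hp
  rw [← Finset.mul_sum] at h1
  have h2 : kap * ((K : ℤ) : ℝ) ^ 5 * M ^ 2
      ≤ ∑ p ∈ Finset.Icc (K : ℤ) (8 * K : ℤ), rho c R (emb R hR0 p) ^ 2 := by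
    refine le_trans ?_ h1
    push_cast at hw ⊢
    calc kap * (K : ℝ) ^ 5 * M ^ 2 = (K : ℝ) ^ 2 * (kap * (K : ℝ) ^ 3 * M ^ 2) := by ring
      _ ≤ _ := mul_le_mul_of_nonneg_left hw (by positivity)
  have h3 := power_mean k (K : ℤ) (by exact_mod_cast hK) (fun p => rho c R (emb R hR0 p))
    (fun p => rho_nonneg c _ _) M hM0 h2
  have h4 : ∑ q ∈ Finset.Icc (K : ℤ) (8 * (K : ℤ)), rho c R (emb R hR0 q) ^ (k + 2)
      = ∑ q ∈ Finset.Icc K (8 * K), rho c R (emb R hR0 q) ^ (k + 2) := by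
    have := sum_Icc_cast K (8 * K) (fun q => rho c R (emb R hR0 q) ^ (k + 2))
    push_cast at this
    exact this
  rw [h4] at h3
  refine le_trans ?_ h3
  have h5 : ∑ p ∈ Finset.Ico (2 * K) (4 * K), ‖c p‖ ^ (2 * (k + 2)) ≤ M ^ (k + 2) := by
    have := pow_sum_ge (Finset.Ico (2 * K) (4 * K)) (fun p : ℕ => ‖c p‖ ^ 2)
      (fun p => by positivity) (k + 1)
    rw [hM]
    refine le_trans (le_of_eq ?_) this
    refine Finset.sum_congr rfl fun p _ => ?_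
    rw [← pow_mul]
  calc ∑ p ∈ Finset.Ico (2 * K) (4 * K), (p : ℝ) ^ (2 * (k + 2) + 1) * ‖c p‖ ^ (2 * (k + 2))
      ≤ ∑ p ∈ Finset.Ico (2 * K) (4 * K), (4 * K : ℝ) ^ (2 * (k + 2) + 1)
          * ‖c p‖ ^ (2 * (k + 2)) := by
        refine Finset.sum_le_sum fun p hp => ?_
        rw [Finset.mem_Ico] at hp
        refine mul_le_mul_of_nonneg_right (pow_le_pow_left₀ (by positivity) ?_ _) (by positivity)
        have : p ≤ 4 * K := hp.2.le
        exact_mod_cast this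
    _ = (4 * K : ℝ) ^ (2 * (k + 2) + 1)
          * ∑ p ∈ Finset.Ico (2 * K) (4 * K), ‖c p‖ ^ (2 * (k + 2)) := by rw [Finset.mul_sum]
    _ ≤ (4 * K : ℝ) ^ (2 * (k + 2) + 1) * M ^ (k + 2) :=
        mul_le_mul_of_nonneg_left h5 (by positivity)
    _ = _ := by rw [mul_pow]; push_cast; ring

theorem rho_total (hc : ∀ n : ℤ, (d : ℤ) < |n| → c n = 0)
    (hs : ∀ n, c (-n) = (starRingEnd ℂ) (c n)) :
    ∑ p ∈ Finset.Icc 2 d, (p : ℝ) ^ (2 * (k + 2) + 1) * ‖c p‖ ^ (2 * (k + 2))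
      ≤ 4 * Ck k * ∑ x, rho c (RR d k) x ^ (k + 2) := by
  have hR0 : (0 : ℤ) ≤ ((RR d k : ℕ) : ℤ) := by positivity
  have hdR : d ≤ RR d k := by
    unfold RR
    nlinarith [Nat.zero_le d, Nat.zero_le k, Nat.zero_le (k * d)]
  have hRbig : ∀ j < Nat.log 2 d, 8 * 2 ^ j ≤ RR d k := by
    intro j hj
    have hd0 : d ≠ 0 := by
      rintro rfl
      simp at hj
    have h1 : 2 ^ (j + 1) ≤ d := by
      calc 2 ^ (j + 1) ≤ 2 ^ Nat.log 2 d := Nat.pow_le_pow_right (by norm_num) hj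
        _ ≤ d := Nat.pow_log_le_self 2 hd0
    have h2 : 8 * 2 ^ j = 4 * 2 ^ (j + 1) := by ring
    unfold RR
    rw [h2]
    nlinarith [Nat.zero_le (k * d)]
  refine (dyadic_lower d (fun p : ℕ => (p : ℝ) ^ (2 * (k + 2) + 1) * ‖c p‖ ^ (2 * (k + 2)))
    fun p => by positivity).trans ?_
  have h3 : ∀ j ∈ Finset.range (Nat.log 2 d),
      ∑ p ∈ Finset.Ico ((2 : ℕ) * 2 ^ j) (4 * 2 ^ j),
        (p : ℝ) ^ (2 * (k + 2) + 1) * ‖c p‖ ^ (2 * (k + 2))
      ≤ Ck k * ∑ q ∈ Finset.Icc ((2 : ℕ) ^ j) (8 * 2 ^ j),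
        rho c (RR d k) (emb (RR d k) hR0 q) ^ (k + 2) := by
    intro j hj
    exact window_step c d k hc hs (2 ^ j) (RR d k) Nat.one_le_two_pow
      (hRbig j (Finset.mem_range.1 hj)) hdR
  refine (Finset.sum_le_sum h3).trans ?_
  rw [← Finset.mul_sum]
  have h4 := dyadic_upper (Nat.log 2 d) (RR d k) hRbig
    (fun q : ℕ => rho c (RR d k) (emb (RR d k) hR0 q) ^ (k + 2))
    (fun q => pow_nonneg (rho_nonneg c _ _) _)
  have h5 : ∑ q ∈ Finset.Icc 1 (RR d k), rho c (RR d k) (emb (RR d k) hR0 ((q : ℕ) : ℤ)) ^ (k + 2)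
      ≤ ∑ x, rho c (RR d k) x ^ (k + 2) := by
    refine sum_inj_le (Finset.Icc 1 (RR d k)) (fun q : ℕ => emb (RR d k) hR0 (q : ℤ)) ?_
      (fun x => rho c (RR d k) x ^ (k + 2)) (fun x => pow_nonneg (rho_nonneg c _ _) _)
    intro q hq q' hq' h
    rw [Finset.mem_coe, Finset.mem_Icc] at hq hq'
    have h1 := emb_val (R := ((RR d k : ℕ) : ℤ)) hR0 (x := (q : ℤ)) (by rw [Finset.mem_Icc]; omega)
    have h2 := emb_val (R := ((RR d k : ℕ) : ℤ)) hR0 (x := (q' : ℤ)) (by rw [Finset.mem_Icc]; omega)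
    have h3 : ((emb ((RR d k : ℕ) : ℤ) hR0 (q : ℤ) : {x // x ∈ Finset.Icc (-((RR d k : ℕ) : ℤ)) (RR d k : ℕ)}) : ℤ)
        = ((emb ((RR d k : ℕ) : ℤ) hR0 (q' : ℤ) : {x // x ∈ Finset.Icc (-((RR d k : ℕ) : ℤ)) (RR d k : ℕ)}) : ℤ) := congrArg _ h
    rw [h1, h2] at h3
    exact_mod_cast h3
  calc _ ≤ Ck k * (4 * ∑ x, rho c (RR d k) x ^ (k + 2)) :=
        mul_le_mul_of_nonneg_left (h4.trans (mul_le_mul_of_nonneg_left h5 (by norm_num)))
          (Ck_pos k).le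
    _ = _ := by ring

theorem Zs_finite (hc : ∀ n : ℤ, (d : ℤ) < |n| → c n = 0)
    (hs : ∀ n, c (-n) = (starRingEnd ℂ) (c n)) :
    (k + 1) * ∑ x, rho c (RR d k) x ^ (k + 2) ≤ (Zs (2 * (k + 2)) c).re
      ∧ (Zs (2 * (k + 2)) c).im = 0 := by
  have hm : Even ((2 * k + 3) + 1) := ⟨k + 2, by ring⟩
  have hmm : (2 * k + 3) + 1 = 2 * (k + 2) := by ring
  have hZ := Zs_eq_trace hm c d hc (RR d k) (by unfold RR; push_cast; linarith)
  rw [hmm] at hZ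
  set S : Matrix {x // x ∈ Finset.Icc (-((RR d k : ℕ) : ℤ)) (RR d k : ℕ)}
    {x // x ∈ Finset.Icc (-((RR d k : ℕ) : ℤ)) (RR d k : ℕ)} ℂ :=
    diagonal (fun i => (sg (i : ℤ) : ℂ)) with hS
  set T := TM c (RR d k) with hT
  have hTh : T.IsHermitian := TM_herm c hs _
  have h := matrix_ineq T hTh (fun i => sg (i : ℤ)) (fun i => sg_mul_self _) k
  constructor
  · rw [hZ, Complex.sub_re]
    have h1 := Complex.re_le_norm ((T * S) ^ (2 * (k + 2))).trace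
    have h2 : ∑ x, rho c (RR d k) x ^ (k + 2)
      = ∑ j : {x // x ∈ Finset.Icc (-((RR d k : ℕ) : ℤ)) (RR d k : ℕ)},
        (√(∑ i : {x // x ∈ Finset.Icc (-((RR d k : ℕ) : ℤ)) (RR d k : ℕ)},
          ‖(((1 - sg (j : ℤ) * sg (i : ℤ)) / 2 : ℝ) : ℂ) * (T * T) j i‖ ^ 2)) ^ (k + 2) := rfl
    rw [h2]
    linarith
  · have hSS : S * S = 1 := by
      rw [hS, diagonal_mul_diagonal, ← diagonal_one]
      congr 1
      funext i
      rw [← Complex.ofReal_mul, sg_mul_self, Complex.ofReal_one]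
    have hSh : S.IsHermitian := by
      rw [hS]
      refine Matrix.isHermitian_diagonal_iff.2 fun i => ?_
      exact Complex.conj_ofReal _
    have hreal : ∀ z : ℂ, (starRingEnd ℂ) z = z → z.im = 0 := fun z hz => Complex.conj_eq_iff_im.1 hz
    have i1 : ((T ^ (2 * (k + 2))).trace).im = 0 := by
      apply hreal
      rw [← Complex.star_def, ← Matrix.trace_conjTranspose, Matrix.conjTranspose_pow, hTh]
    have i2 : (((T * S) ^ (2 * (k + 2))).trace).im = 0 := by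
      apply hreal
      rw [← Complex.star_def, ← Matrix.trace_conjTranspose, Matrix.conjTranspose_pow,
        Matrix.conjTranspose_mul, hTh, hSh]
      have h3 : ∀ n : ℕ, (S * T) ^ n = S * (T * S) ^ n * S := by
        intro n
        induction n with
        | zero => rw [pow_zero, pow_zero, mul_one, hSS]
        | succ n ih =>
          rw [pow_succ, ih, pow_succ]
          have : S * (T * S) ^ n * S * (S * T) = S * (T * S) ^ n * (S * S) * T := by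
            simp only [mul_assoc]
          rw [this, hSS, mul_one]
          simp only [mul_assoc]
          rw [hSS, mul_one]
      rw [h3, Matrix.trace_mul_comm, ← mul_assoc, hSS, one_mul]
    rw [hZ, Complex.sub_im, i1, i2, sub_zero]

/-- The inequality for finitely supported sequences. -/
theorem finite_ineq (hc : ∀ n : ℤ, (d : ℤ) < |n| → c n = 0)
    (hs : ∀ n, c (-n) = (starRingEnd ℂ) (c n)) :
    (4 * Ck k)⁻¹ * ∑ p ∈ Finset.Icc 2 d, (p : ℝ) ^ (2 * (k + 2) + 1) * ‖c p‖ ^ (2 * (k + 2))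
      ≤ (Zs (2 * (k + 2)) c).re := by
  have h1 := rho_total c d k hc hs
  have h2 := (Zs_finite c d k hc hs).1
  have hC := Ck_pos k
  have h3 : 0 ≤ ∑ x, rho c (RR d k) x ^ (k + 2) :=
    Finset.sum_nonneg fun x _ => pow_nonneg (rho_nonneg c _ _) _
  have h4 : (4 * Ck k)⁻¹ * ∑ p ∈ Finset.Icc 2 d, (p : ℝ) ^ (2 * (k + 2) + 1) * ‖c p‖ ^ (2 * (k + 2))
      ≤ ∑ x, rho c (RR d k) x ^ (k + 2) := by
    rw [inv_mul_le_iff₀ (by positivity)]
    exact h1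
  refine h4.trans (le_trans ?_ h2)
  have hk : (0 : ℝ) ≤ k := Nat.cast_nonneg k
  nlinarith

end main

end Pool.Agent.J6H21.Steklov
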