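import Mathlib
import Pool.Agent.J6H21.Steklov.Finite2

/-! Passage to the limit. -/

namespace Pool.Agent.J6H21.Steklov

open Filter Topology

/-- truncation -/
noncomputable def trunc (c : ℤ → ℂ) (d : ℕ) (n : ℤ) : ℂ := if |n| ≤ (d : ℤ) then c n else 0

theorem trunc_tendsto (c : ℤ → ℂ) (n : ℤ) : Tendsto (fun d => trunc c d n) atTop (𝓝 (c n)) := by
  refine tendsto_const_nhds.congr' ?_
  filter_upwards [eventually_ge_atTop |n|.toNat] with d hd
  unfold trunc
  rw [if_pos]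
  omega

theorem trunc_norm_le (c : ℤ → ℂ) (d : ℕ) (n : ℤ) : ‖trunc c d n‖ ≤ ‖c n‖ := by
  unfold trunc
  split_ifs
  · exact le_rfl
  · rw [norm_zero]; exact norm_nonneg _

theorem Zs_tendsto (m : ℕ) (hm : Even m) (c : ℤ → ℂ)
    (hc : Summable fun x : ℤ => (1 + 2 * |(x : ℝ)|) ^ (m + 1) * ‖c x‖) :
    Tendsto (fun d => Zs m (trunc c d)) atTop (𝓝 (Zs m c)) := by
  unfold Zs
  refine tendsto_tsum_of_dominated_convergence (summable_bound hm c hc) ?_ ?_
  · intro j
    exact tendsto_const_nhds.mul (tendsto_finsetProd _ fun i _ => trunc_tendsto c _)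
  · refine Eventually.of_forall fun d j => ?_
    rw [norm_mul, norm_prod]
    have h1 : ‖((Nc m j.1 : ℤ) : ℂ)‖ = (Nc m j.1 : ℝ) := by
      rw [Complex.norm_intCast, abs_of_nonneg]
      exact_mod_cast Nc_nonneg hm j.1
    rw [h1]
    refine mul_le_mul_of_nonneg_left ?_ (by exact_mod_cast Nc_nonneg hm j.1)
    exact Finset.prod_le_prod (fun _ _ => norm_nonneg _) fun i _ => trunc_norm_le c d _

theorem limit_ineq (k : ℕ) (c : ℤ → ℂ) (hs : ∀ n, c (-n) = (starRingEnd ℂ) (c n))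
    (hc : Summable fun x : ℤ => (1 + 2 * |(x : ℝ)|) ^ (2 * (k + 2) + 1) * ‖c x‖) :
    (Zs (2 * (k + 2)) c).im = 0 ∧
    ∀ M : ℕ, (4 * Ck k)⁻¹ * ∑ p ∈ Finset.Icc 2 M, (p : ℝ) ^ (2 * (k + 2) + 1) * ‖c p‖ ^ (2 * (k + 2))
      ≤ (Zs (2 * (k + 2)) c).re := by
  have hlim := Zs_tendsto (2 * (k + 2)) (even_two_mul _) c hc
  have hsupp : ∀ d : ℕ, ∀ n : ℤ, (d : ℤ) < |n| → trunc c d n = 0 := by
    intro d n hn
    unfold trunc
    rw [if_neg (not_le.2 hn)]
  have hsym : ∀ d : ℕ, ∀ n, trunc c d (-n) = (starRingEnd ℂ) (trunc c d n) := by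
    intro d n
    unfold trunc
    rw [abs_neg]
    split_ifs
    · exact hs n
    · simp
  constructor
  · have h1 : Tendsto (fun d => (Zs (2 * (k + 2)) (trunc c d)).im) atTop
        (𝓝 ((Zs (2 * (k + 2)) c).im)) := (Complex.continuous_im.tendsto _).comp hlim
    have h2 : (fun d => (Zs (2 * (k + 2)) (trunc c d)).im) = fun _ => 0 :=
      funext fun d => (Zs_finite (trunc c d) d k (hsupp d) (hsym d)).2
    rw [h2] at h1
    exact tendsto_nhds_unique h1 tendsto_const_nhds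
  · intro M
    have h1 : Tendsto (fun d => (Zs (2 * (k + 2)) (trunc c d)).re) atTop
        (𝓝 ((Zs (2 * (k + 2)) c).re)) := (Complex.continuous_re.tendsto _).comp hlim
    refine ge_of_tendsto h1 ?_
    filter_upwards [eventually_ge_atTop M] with d hd
    refine le_trans ?_ (finite_ineq (trunc c d) d k (hsupp d) (hsym d))
    have hC := Ck_pos k
    refine mul_le_mul_of_nonneg_left ?_ (by positivity)
    have hsub : Finset.Icc 2 M ⊆ Finset.Icc 2 d := Finset.Icc_subset_Icc_right hd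
    refine le_trans (le_of_eq ?_) (Finset.sum_le_sum_of_subset_of_nonneg hsub
      fun p _ _ => by positivity)
    refine Finset.sum_congr rfl fun p hp => ?_
    rw [Finset.mem_Icc] at hp
    have : trunc c d (p : ℤ) = c p := by
      unfold trunc
      rw [if_pos]
      rw [abs_of_nonneg (by positivity)]
      exact_mod_cast hp.2.trans hd
    rw [this]

theorem final_seq (k : ℕ) (c : ℤ → ℂ) (hs : ∀ n, c (-n) = (starRingEnd ℂ) (c n))
    (hc : Summable fun x : ℤ => (1 + 2 * |(x : ℝ)|) ^ (2 * (k + 2) + 1) * ‖c x‖) :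
    (Zs (2 * (k + 2)) c).im = 0 ∧
    (Summable fun n : ℕ => ((n : ℝ) + 2) ^ (2 * (k + 2) + 1) * ‖c ((n : ℤ) + 2)‖ ^ (2 * (k + 2))) ∧
    (4 * Ck k)⁻¹ * ∑' n : ℕ, ((n : ℝ) + 2) ^ (2 * (k + 2) + 1) * ‖c ((n : ℤ) + 2)‖ ^ (2 * (k + 2))
      ≤ (Zs (2 * (k + 2)) c).re := by
  obtain ⟨h1, h2⟩ := limit_ineq k c hs hc
  have hC := Ck_pos k
  have h3 : ∀ N : ℕ, ∑ n ∈ Finset.range N,
      ((n : ℝ) + 2) ^ (2 * (k + 2) + 1) * ‖c ((n : ℤ) + 2)‖ ^ (2 * (k + 2))
      ≤ 4 * Ck k * (Zs (2 * (k + 2)) c).re := by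
    intro N
    have h4 := h2 (N + 1)
    rw [inv_mul_le_iff₀ (by positivity)] at h4
    refine le_trans (le_of_eq ?_) h4
    refine Finset.sum_nbij (fun n => n + 2) ?_ ?_ ?_ ?_
    · intro n hn
      rw [Finset.mem_range] at hn
      rw [Finset.mem_Icc]
      omega
    · intro x _ y _ h
      simpa using h
    · intro y hy
      rw [Finset.mem_coe, Finset.mem_Icc] at hy
      exact ⟨y - 2, by rw [Finset.mem_coe, Finset.mem_range]; omega, by simp only []; omega⟩
    · intro n _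
      push_cast
      rfl
  have h5 : Summable fun n : ℕ =>
      ((n : ℝ) + 2) ^ (2 * (k + 2) + 1) * ‖c ((n : ℤ) + 2)‖ ^ (2 * (k + 2)) :=
    summable_of_sum_range_le (fun n => by positivity) h3
  refine ⟨h1, h5, ?_⟩
  rw [inv_mul_le_iff₀ (by positivity)]
  exact Real.tsum_le_of_sum_range_le (fun n => by positivity) h3

end Pool.Agent.J6H21.Steklov
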