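import Mathlib
import Pool.Agent.J6H21.Steklov.Limit

/-! The lower bound with the norms of the dyadic blocks. -/

namespace Pool.Agent.J6H21.Steklov

open Filter Topology

/-- the square of the norm of the dyadic block `2 K ≤ n < 4 K` -/
noncomputable def blk (c : ℤ → ℂ) (K : ℕ) : ℝ := ∑ p ∈ Finset.Ico (2 * K) (4 * K), ‖c (p : ℤ)‖ ^ 2

theorem blk_nonneg (c : ℤ → ℂ) (K : ℕ) : 0 ≤ blk c K := Finset.sum_nonneg fun _ _ => by positivity

section main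

variable (c : ℤ → ℂ) (d : ℕ) (k : ℕ)

theorem window_blk (hc : ∀ n : ℤ, (d : ℤ) < |n| → c n = 0)
    (hs : ∀ n, c (-n) = (starRingEnd ℂ) (c n)) (K R : ℕ) (hK : 1 ≤ K) (hKR : 8 * K ≤ R)
    (hdR : d ≤ R) :
    (4 * K : ℝ) ^ (2 * (k + 2) + 1) * blk c K ^ (k + 2)
      ≤ Ck k * ∑ q ∈ Finset.Icc K (8 * K), rho c R (emb R (by positivity) q) ^ (k + 2) := by
  have hR0 : (0 : ℤ) ≤ (R : ℤ) := by positivity
  obtain ⟨M, hM⟩ : ∃ M, M = blk c K := ⟨_, rfl⟩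
  have hM0 : 0 ≤ M := by rw [hM]; exact blk_nonneg c K
  have hw := window_ineq c d K (by exact_mod_cast hK) hc
  have hM' : ∑ p ∈ Finset.Ico (2 * (K : ℤ)) (4 * (K : ℤ)), ‖c p‖ ^ 2 = M := by
    have := sum_Ico_cast (2 * K) (4 * K) (fun p => ‖c p‖ ^ 2)
    push_cast at this
    rw [hM]
    exact this
  rw [hM', Finset.sum_product] at hw
  simp only at hw
  have h1 : ∑ p ∈ Finset.Icc (K : ℤ) (8 * K : ℤ),
      ((K : ℝ) ^ 2 * ∑ q ∈ Finset.Icc (K : ℤ) (8 * K : ℤ), ‖Gf c d (p + q) p‖ ^ 2)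
      ≤ ∑ p ∈ Finset.Icc (K : ℤ) (8 * K : ℤ), rho c R (emb R hR0 p) ^ 2 :=
    Finset.sum_le_sum fun p hp => rho_window c d hc hs K R hK hKR hdR p hp
  rw [← Finset.mul_sum] at h1
  have h2 : kap * ((K : ℤ) : ℝ) ^ 5 * M ^ 2
      ≤ ∑ p ∈ Finset.Icc (K : ℤ) (8 * K : ℤ), rho c R (emb R hR0 p) ^ 2 := by
    refine le_trans ?_ h1
    push_cast at hw ⊢
    calc kap * (K : ℝ) ^ 5 * M ^ 2 = (K : ℝ) ^ 2 * (kap * (K : ℝ) ^ 3 * M ^ 2) := by ring
      _ ≤ _ := mul_le_mul_of_nonneg_left hw (by positivity)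
  have h3 := power_mean k (K : ℤ) (by exact_mod_cast hK) (fun p => rho c R (emb R hR0 p))
    (fun p => rho_nonneg c _ _) M hM0 h2
  have h4 : ∑ q ∈ Finset.Icc (K : ℤ) (8 * (K : ℤ)), rho c R (emb R hR0 q) ^ (k + 2)
      = ∑ q ∈ Finset.Icc K (8 * K), rho c R (emb R hR0 q) ^ (k + 2) := by
    have := sum_Icc_cast K (8 * K) (fun q => rho c R (emb R hR0 q) ^ (k + 2))
    push_cast at this
    exact this
  rw [h4] at h3
  refine le_trans (le_of_eq ?_) h3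
  rw [← hM, mul_pow]
  push_cast
  ring

theorem rho_blk (hc : ∀ n : ℤ, (d : ℤ) < |n| → c n = 0)
    (hs : ∀ n, c (-n) = (starRingEnd ℂ) (c n)) (J : ℕ) (hJ : J ≤ Nat.log 2 d) :
    ∑ j ∈ Finset.range J, (4 * 2 ^ j : ℝ) ^ (2 * (k + 2) + 1) * blk c (2 ^ j) ^ (k + 2)
      ≤ 4 * Ck k * ∑ x, rho c (RR d k) x ^ (k + 2) := by
  have hR0 : (0 : ℤ) ≤ ((RR d k : ℕ) : ℤ) := by positivity
  have hdR : d ≤ RR d k := by
    unfold RR
    nlinarith [Nat.zero_le d, Nat.zero_le k, Nat.zero_le (k * d)]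
  have hRbig : ∀ j < J, 8 * 2 ^ j ≤ RR d k := by
    intro j hj'
    have hj : j < Nat.log 2 d := lt_of_lt_of_le hj' hJ
    have hd0 : d ≠ 0 := by
      rintro rfl
      simp at hj
    have h1 : 2 ^ (j + 1) ≤ d := by
      calc 2 ^ (j + 1) ≤ 2 ^ Nat.log 2 d := Nat.pow_le_pow_right (by norm_num) hj
        _ ≤ d := Nat.pow_log_le_self 2 hd0
    have h2 : 8 * 2 ^ j = 4 * 2 ^ (j + 1) := by ring
    unfold RR
    rw [h2]
    nlinarith [Nat.zero_le (k * d)]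
  have h3 : ∀ j ∈ Finset.range J,
      (4 * 2 ^ j : ℝ) ^ (2 * (k + 2) + 1) * blk c (2 ^ j) ^ (k + 2)
      ≤ Ck k * ∑ q ∈ Finset.Icc ((2 : ℕ) ^ j) (8 * 2 ^ j),
        rho c (RR d k) (emb (RR d k) hR0 q) ^ (k + 2) := by
    intro j hj
    have := window_blk c d k hc hs (2 ^ j) (RR d k) Nat.one_le_two_pow
      (hRbig j (Finset.mem_range.1 hj)) hdR
    push_cast at this
    exact this
  refine (Finset.sum_le_sum h3).trans ?_
  rw [← Finset.mul_sum]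
  have h4 := dyadic_upper J (RR d k) hRbig
    (fun q : ℕ => rho c (RR d k) (emb (RR d k) hR0 q) ^ (k + 2))
    (fun q => pow_nonneg (rho_nonneg c _ _) _)
  have h5 : ∑ q ∈ Finset.Icc 1 (RR d k), rho c (RR d k) (emb (RR d k) hR0 ((q : ℕ) : ℤ)) ^ (k + 2)
      ≤ ∑ x, rho c (RR d k) x ^ (k + 2) := by
    refine sum_inj_le (Finset.Icc 1 (RR d k)) (fun q : ℕ => emb (RR d k) hR0 (q : ℤ)) ?_
      (fun x => rho c (RR d k) x ^ (k + 2)) (fun x => pow_nonneg (rho_nonneg c _ _) _)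
    intro q hq q' hq' h
    rw [Finset.mem_coe, Finset.mem_Icc] at hq hq'
    have h1 := emb_val (R := ((RR d k : ℕ) : ℤ)) hR0 (x := (q : ℤ)) (by rw [Finset.mem_Icc]; omega)
    have h2 := emb_val (R := ((RR d k : ℕ) : ℤ)) hR0 (x := (q' : ℤ)) (by rw [Finset.mem_Icc]; omega)
    have h3 : ((emb ((RR d k : ℕ) : ℤ) hR0 (q : ℤ) : {x // x ∈ Finset.Icc (-((RR d k : ℕ) : ℤ)) (RR d k : ℕ)}) : ℤ)
        = ((emb ((RR d k : ℕ) : ℤ) hR0 (q' : ℤ) : {x // x ∈ Finset.Icc (-((RR d k : ℕ) : ℤ)) (RR d k : ℕ)}) : ℤ) := congrArg _ h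
    rw [h1, h2] at h3
    exact_mod_cast h3
  calc _ ≤ Ck k * (4 * ∑ x, rho c (RR d k) x ^ (k + 2)) :=
        mul_le_mul_of_nonneg_left (h4.trans (mul_le_mul_of_nonneg_left h5 (by norm_num)))
          (Ck_pos k).le
    _ = _ := by ring

theorem finite_blk (hc : ∀ n : ℤ, (d : ℤ) < |n| → c n = 0)
    (hs : ∀ n, c (-n) = (starRingEnd ℂ) (c n)) (J : ℕ) (hJ : J ≤ Nat.log 2 d) :
    ∑ j ∈ Finset.range J, (4 * 2 ^ j : ℝ) ^ (2 * (k + 2) + 1) * blk c (2 ^ j) ^ (k + 2)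
      ≤ 4 * Ck k * (Zs (2 * (k + 2)) c).re := by
  have h1 := rho_blk c d k hc hs J hJ
  have h2 := (Zs_finite c d k hc hs).1
  have hC := Ck_pos k
  have h3 : 0 ≤ ∑ x, rho c (RR d k) x ^ (k + 2) :=
    Finset.sum_nonneg fun x _ => pow_nonneg (rho_nonneg c _ _) _
  refine h1.trans (mul_le_mul_of_nonneg_left (le_trans ?_ h2) (by positivity))
  have hk : (0 : ℝ) ≤ k := Nat.cast_nonneg k
  nlinarith

end main

theorem limit_blk (k : ℕ) (c : ℤ → ℂ) (hs : ∀ n, c (-n) = (starRingEnd ℂ) (c n))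
    (hc : Summable fun x : ℤ => (1 + 2 * |(x : ℝ)|) ^ (2 * (k + 2) + 1) * ‖c x‖) (J : ℕ) :
    ∑ j ∈ Finset.range J, (4 * 2 ^ j : ℝ) ^ (2 * (k + 2) + 1) * blk c (2 ^ j) ^ (k + 2)
      ≤ 4 * Ck k * (Zs (2 * (k + 2)) c).re := by
  have hlim := Zs_tendsto (2 * (k + 2)) (even_two_mul _) c hc
  have hsupp : ∀ d : ℕ, ∀ n : ℤ, (d : ℤ) < |n| → trunc c d n = 0 := by
    intro d n hn
    unfold trunc
    rw [if_neg (not_le.2 hn)]
  have hsym : ∀ d : ℕ, ∀ n, trunc c d (-n) = (starRingEnd ℂ) (trunc c d n) := by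
    intro d n
    unfold trunc
    rw [abs_neg]
    split_ifs
    · exact hs n
    · simp
  have h1 : Tendsto (fun d => 4 * Ck k * (Zs (2 * (k + 2)) (trunc c d)).re) atTop
      (𝓝 (4 * Ck k * (Zs (2 * (k + 2)) c).re)) :=
    ((Complex.continuous_re.tendsto _).comp hlim).const_mul _
  refine ge_of_tendsto h1 ?_
  filter_upwards [eventually_ge_atTop (4 * 2 ^ J)] with d hd
  have hJ : J ≤ Nat.log 2 d := by
    refine Nat.le_log_of_pow_le (by norm_num) ?_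
    have : 1 ≤ 2 ^ J := Nat.one_le_two_pow
    omega
  refine le_trans (le_of_eq ?_) (finite_blk (trunc c d) d k (hsupp d) (hsym d) J hJ)
  refine Finset.sum_congr rfl fun j hj => ?_
  rw [Finset.mem_range] at hj
  congr 2
  unfold blk
  refine Finset.sum_congr rfl fun p hp => ?_
  rw [Finset.mem_Ico] at hp
  have h3 : 2 ^ j ≤ 2 ^ J := Nat.pow_le_pow_right (by norm_num) hj.le
  have : trunc c d (p : ℤ) = c p := by
    unfold trunc
    rw [if_pos]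
    rw [abs_of_nonneg (by positivity)]
    exact_mod_cast (by omega : p ≤ d)
  rw [this]

end Pool.Agent.J6H21.Steklov
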