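import Mathlib

/-! Fourier coefficients of smooth periodic functions decay rapidly. -/

namespace Pool.Agent.J6H21.Steklov

open Real Complex MeasureTheory

open scoped ContDiff Interval

/-- Fourier coefficient. -/
noncomputable def fc (a : ℝ → ℝ) (n : ℤ) : ℂ :=
  1 / (2 * (π : ℂ)) * ∫ θ in (0 : ℝ)..(2 * π), (a θ : ℂ) * Complex.exp (-((n : ℂ) * θ * I))

theorem fc_conj (a : ℝ → ℝ) (n : ℤ) : fc a (-n) = (starRingEnd ℂ) (fc a n) := by
  unfold fc
  rw [map_mul, intervalIntegral.integral_of_le (by positivity),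
    intervalIntegral.integral_of_le (by positivity), ← integral_conj]
  congr 1
  · rw [map_div₀, map_one, map_mul, Complex.conj_ofReal]
    congr 2
    exact (Complex.conj_ofReal 2).symm
  · congr 1
    funext θ
    rw [map_mul, Complex.conj_ofReal, ← Complex.exp_conj, map_neg, map_mul, map_mul,
      Complex.conj_ofReal, Complex.conj_I]
    congr 2
    have : (starRingEnd ℂ) (n : ℂ) = n := by
      have := Complex.conj_ofReal (n : ℝ)
      simpa using this
    rw [this]
    push_cast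
    ring

theorem fc_bound (a : ℝ → ℝ) (n : ℤ) :
    ‖fc a n‖ ≤ 1 / (2 * π) * ∫ θ in (0 : ℝ)..(2 * π), |a θ| := by
  unfold fc
  rw [norm_mul]
  have h1 : ‖1 / (2 * (π : ℂ))‖ = 1 / (2 * π) := by
    rw [norm_div, norm_one, norm_mul, Complex.norm_real, Real.norm_eq_abs,
      abs_of_pos Real.pi_pos]
    norm_num
  rw [h1]
  refine mul_le_mul_of_nonneg_left ?_ (by positivity)
  refine (intervalIntegral.norm_integral_le_integral_norm (by positivity)).trans (le_of_eq ?_)
  congr 1
  funext θ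
  rw [norm_mul, Complex.norm_real, Real.norm_eq_abs, Complex.norm_exp]
  have : (-((n : ℂ) * θ * I)).re = 0 := by simp
  rw [this, Real.exp_zero, mul_one]

theorem fc_deriv (a : ℝ → ℝ) (ha : ContDiff ℝ 1 a) (hp : Function.Periodic a (2 * π)) (n : ℤ) :
    fc (deriv a) n = (n * I) * fc a n := by
  have hd : Differentiable ℝ a := ha.differentiable one_ne_zero
  have hcd : Continuous (deriv a) := ha.continuous_deriv le_rfl
  have hca : Continuous a := ha.continuous
  set e : ℝ → ℂ := fun θ => Complex.exp (-((n : ℂ) * θ * I)) with he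
  have hce : Continuous e := by rw [he]; fun_prop
  have hder : ∀ θ : ℝ, HasDerivAt (fun θ : ℝ => (a θ : ℂ) * e θ)
      (((deriv a θ : ℝ) : ℂ) * e θ + (a θ : ℂ) * (e θ * (-((n : ℂ) * 1 * I)))) θ := by
    intro θ
    refine HasDerivAt.mul ((hd θ).hasDerivAt.ofReal_comp) ?_
    refine HasDerivAt.cexp ?_
    exact (((hasDerivAt_id θ).ofReal_comp.const_mul (n : ℂ)).mul_const I).neg
  have hint : IntervalIntegrable (fun θ : ℝ => ((deriv a θ : ℝ) : ℂ) * e θ
      + (a θ : ℂ) * (e θ * (-((n : ℂ) * 1 * I)))) volume 0 (2 * π) := by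
    apply Continuous.intervalIntegrable
    fun_prop
  have h1 := intervalIntegral.integral_eq_sub_of_hasDerivAt (fun θ _ => hder θ) hint
  have h2 : a (2 * π) = a 0 := by
    have := hp 0
    rwa [zero_add] at this
  have h3 : e (2 * π) = 1 := by
    rw [he]
    simp only
    have : -((n : ℂ) * ((2 * π : ℝ) : ℂ) * I) = ((-n : ℤ) : ℂ) * (2 * π * I) := by
      push_cast; ring
    rw [this]
    exact Complex.exp_int_mul_two_pi_mul_I _
  have h4 : e 0 = 1 := by rw [he]; simp
  rw [h2, h3, h4, sub_self] at h1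
  rw [intervalIntegral.integral_add] at h1
  · have h5 : ∫ θ in (0 : ℝ)..(2 * π), (a θ : ℂ) * (e θ * (-((n : ℂ) * 1 * I)))
        = (-((n : ℂ) * I)) * ∫ θ in (0 : ℝ)..(2 * π), (a θ : ℂ) * e θ := by
      rw [← intervalIntegral.integral_const_mul]
      congr 1
      funext θ
      ring
    rw [h5] at h1
    unfold fc
    have h6 : ∫ θ in (0 : ℝ)..(2 * π), ((deriv a θ : ℝ) : ℂ) * e θ
        = (n * I) * ∫ θ in (0 : ℝ)..(2 * π), (a θ : ℂ) * e θ := by
      linear_combination h1
    calc _ = 1 / (2 * (π : ℂ)) * ∫ θ in (0 : ℝ)..(2 * π), ((deriv a θ : ℝ) : ℂ) * e θ := rfl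
      _ = _ := by rw [h6]; ring
  · apply Continuous.intervalIntegrable
    fun_prop
  · apply Continuous.intervalIntegrable
    fun_prop

theorem periodic_deriv (a : ℝ → ℝ) (hp : Function.Periodic a (2 * π)) :
    Function.Periodic (deriv a) (2 * π) := by
  intro x
  have h1 : (fun y => a (y + 2 * π)) = a := funext hp
  have h2 := deriv_comp_add_const a (2 * π) x
  rw [h1] at h2
  exact h2.symm

theorem fc_decay (r : ℕ) : ∀ a : ℝ → ℝ, ContDiff ℝ ∞ a → Function.Periodic a (2 * π) →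
    ∃ C : ℝ, ∀ n : ℤ, |(n : ℝ)| ^ r * ‖fc a n‖ ≤ C := by
  induction r with
  | zero =>
    intro a _ _
    exact ⟨_, fun n => by rw [pow_zero, one_mul]; exact fc_bound a n⟩
  | succ r ih =>
    intro a ha hp
    have ha' : ContDiff ℝ ∞ (deriv a) := (contDiff_infty_iff_deriv.1 ha).2
    obtain ⟨C, hC⟩ := ih (deriv a) ha' (periodic_deriv a hp)
    refine ⟨C, fun n => ?_⟩
    have h1 := hC n
    rw [fc_deriv a (ha.of_le (by exact_mod_cast le_top)) hp n, norm_mul, norm_mul, Complex.norm_I,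
      mul_one, Complex.norm_intCast] at h1
    calc _ = |(n : ℝ)| ^ r * (|(n : ℝ)| * ‖fc a n‖) := by ring
      _ ≤ C := h1

theorem fc_summable (N : ℕ) (a : ℝ → ℝ) (ha : ContDiff ℝ ∞ a)
    (hp : Function.Periodic a (2 * π)) :
    Summable fun x : ℤ => (1 + 2 * |(x : ℝ)|) ^ N * ‖fc a x‖ := by
  obtain ⟨C, hC⟩ := fc_decay (N + 2) a ha hp
  have h1 : Summable fun x : ℤ => 3 ^ N * C * (1 / (x : ℝ) ^ 2) :=
    (Real.summable_one_div_int_pow.2 (by norm_num)).mul_left _
  have h2 : Summable fun x : ℤ => if x = 0 then ‖fc a 0‖ else 0 :=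
    (hasSum_ite_eq (0 : ℤ) ‖fc a 0‖).summable
  refine Summable.of_nonneg_of_le (fun x => by positivity) (fun x => ?_) (h1.add h2)
  by_cases hx : x = 0
  · subst hx
    simp
  · rw [if_neg hx, add_zero]
    have hx1 : (1 : ℝ) ≤ |(x : ℝ)| := by
      have : (1 : ℤ) ≤ |x| := Int.one_le_abs hx
      exact_mod_cast this
    have hx0 : (0 : ℝ) < |(x : ℝ)| := by linarith
    have h3 : (1 + 2 * |(x : ℝ)|) ^ N ≤ 3 ^ N * |(x : ℝ)| ^ N := by
      rw [← mul_pow]
      exact pow_le_pow_left₀ (by positivity) (by linarith) N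
    have h4 : ‖fc a x‖ ≤ C / |(x : ℝ)| ^ (N + 2) := by
      rw [le_div_iff₀ (by positivity), mul_comm]
      exact hC x
    have hC0 : 0 ≤ C := le_trans (by positivity) (hC x)
    calc (1 + 2 * |(x : ℝ)|) ^ N * ‖fc a x‖
        ≤ (3 ^ N * |(x : ℝ)| ^ N) * (C / |(x : ℝ)| ^ (N + 2)) :=
          mul_le_mul h3 h4 (norm_nonneg _) (by positivity)
      _ = 3 ^ N * C * (1 / (x : ℝ) ^ 2) := by
          rw [← sq_abs (x : ℝ), pow_add]
          field_simp

end Pool.Agent.J6H21.Steklov
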